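import Pool.Agent.Lib.Q903cf7.Half

/-!
# The control lemma
-/

set_option autoImplicit false
set_option linter.unusedSectionVars false

namespace Pool.Agent.Lib.Q903cf7

variable {G m : ℕ} [NeZero G]

/-- Run the half line system along a list of inputs. -/
def runH (π : Equiv.Perm (Q G)) (e : Q G ≃ (Fin m → Bool)) (us : List (Option Bool))
    (y : Cfg G) : Cfg G := us.foldl (fun y u => Phi π e u y) y

lemma runH_append (π : Equiv.Perm (Q G)) (e : Q G ≃ (Fin m → Bool)) (us vs : List (Option Bool))
    (y : Cfg G) : runH π e (us ++ vs) y = runH π e vs (runH π e us y) := by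
  simp [runH, List.foldl_append]

lemma runH_Bk (π : Equiv.Perm (Q G)) (e : Q G ≃ (Fin m → Bool)) (T : ℕ) :
    ∀ z : Cfg G, ∃ us : List (Option Bool), us.length = T ∧ runH π e us ((Bk π e)^[T] z) = z := by
  induction T with
  | zero => exact fun z => ⟨[], rfl, rfl⟩
  | succ T ih =>
    intro z
    obtain ⟨us, h1, h2⟩ := ih (Bk π e z)
    refine ⟨us ++ [(shKI (pushI e z) (-1)).2], by simp [h1], ?_⟩
    rw [runH_append, Function.iterate_succ_apply, h2]
    exact Phi_Bk π e z

/-! ### Agreement -/

/-- Agreement left of `n`. -/
def Agr (n : ℤ) (x y : Cfg G) : Prop := ∀ j : ℤ, j < n → x j = y j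

lemma Agr.mono {n k : ℤ} {x y : Cfg G} (h : Agr n x y) (hk : k ≤ n) : Agr k x y :=
  fun j hj => h j (by omega)

lemma agr_cellP (π : Equiv.Perm (Q G)) {n : ℤ} {x y : Cfg G} (h : Agr n x y) :
    Agr n (cellP π x) (cellP π y) := by
  intro j hj
  have hq : quiet x j ↔ quiet y j := by simp only [quiet, h j hj, h (j - 1) (by omega)]
  simp only [cellP, hq, h j hj]

lemma agr_edgeX {n : ℤ} {x y : Cfg G} (h : Agr (n + 1) x y) : Agr n (edgeX x) (edgeX y) := by
  intro j hj
  have e1 := link_congr (h (j - 1) (by omega)) (h j (by omega)) (h (j + 1) (by omega))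
  have e2 := link_congr (h (j - 1 - 1) (by omega)) (h (j - 1) (by omega))
    (h (j - 1 + 1) (by omega))
  simp only [edgeX, e1, e2, h j (by omega), h (j - 1) (by omega), h (j + 1) (by omega)]

lemma agr_mach (π : Equiv.Perm (Q G)) {n : ℤ} {x y : Cfg G} (h : Agr (n + 1) x y) :
    Agr n (mach π x) (mach π y) := agr_edgeX (agr_cellP π h)

lemma agr_emit {n : ℤ} {x y : Cfg G} (h : Agr n x y) : Agr n (emit x) (emit y) := by
  intro j hj
  have hq : act x j ↔ act y j := by simp only [act, h (j - 1) (by omega)]
  simp only [emit, hq, h j hj]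

lemma agr_setU {n : ℤ} {x y : Cfg G} (u : Option Bool) (h : Agr n x y) :
    Agr n (setU u x) (setU u y) := by
  intro j hj
  simp only [setU, h j hj]

lemma agr_shK {n : ℤ} {x y : Cfg G} (h : Agr n x y) : Agr n (shK x) (shK y) := by
  intro j hj
  simp only [shK, h j hj, h (j - 1) (by omega)]

lemma agr_push (e : Q G ≃ (Fin m → Bool)) {n : ℤ} {x y : Cfg G} (h : Agr n x y) :
    Agr n (push e x) (push e y) := by
  intro j hj
  simp only [push, h j hj]

lemma agr_Phi (π : Equiv.Perm (Q G)) (e : Q G ≃ (Fin m → Bool)) (u : Option Bool) {n : ℤ}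
    {x y : Cfg G} (h : Agr (n + 2) x y) : Agr n (Phi π e u x) (Phi π e u y) :=
  agr_push e (agr_shK (agr_setU u (agr_emit (agr_mach π (agr_mach π
    (h.mono (by omega) : Agr (n + 1 + 1) x y))))))

lemma agr_runH (π : Equiv.Perm (Q G)) (e : Q G ≃ (Fin m → Bool)) (us : List (Option Bool)) :
    ∀ {n : ℤ} {x y : Cfg G}, Agr (n + 2 * us.length) x y →
      Agr n (runH π e us x) (runH π e us y) := by
  induction us with
  | nil => intro n x y h; exact h.mono (by simp)
  | cons u us ih =>
    intro n x y h
    exact ih (agr_Phi π e u (h.mono (by push_cast [List.length_cons]; linarith)))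

/-! ### The stream lemma -/

lemma psh_fields (e : Q G ≃ (Fin m → Bool)) (q : Q G) (p : Bool) (a : Fin m) :
    e (psh e (q, p)).1 a = (Fin.cons p (e q) : Fin (m + 1) → Bool) a.castSucc := by
  simp [psh]

/-- After feeding the payloads `rs` (last one first in the list), the cells near the source are
all-carrier with contents given by the payloads. -/
lemma stream {π : Equiv.Perm (Q G)} (hπ : π (W0 (G := G)).1 = (W0 (G := G)).1)
    (e : Q G ≃ (Fin m → Bool)) (y : Cfg G) (hy : HL y) (rs : List Bool) :
    HL (runH π e (rs.reverse.map some) y) ∧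
    (∀ d : ℕ, d < rs.length → (runH π e (rs.reverse.map some) y d).2 ≠ none) ∧
    (∀ (d : ℕ) (a : Fin m) (h : (m + 1) * d + a < rs.length),
      e (runH π e (rs.reverse.map some) y d).1 a = rs[(m + 1) * d + a]) ∧
    (∀ (d : ℕ) (h : (m + 1) * d + m < rs.length),
      (runH π e (rs.reverse.map some) y d).2 = some rs[(m + 1) * d + m]) := by
  induction rs with
  | nil => exact ⟨hy, by simp, by simp, by simp⟩
  | cons p rs ih =>
    obtain ⟨iH, i1, i2, i3⟩ := ih
    have hrun : runH π e ((p :: rs).reverse.map some) y =
        Phi π e (some p) (runH π e (rs.reverse.map some) y) := by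
      rw [List.reverse_cons, List.map_append, runH_append]
      rfl
    rw [hrun]
    set x := runH π e (rs.reverse.map some) y with hx
    -- the cells near the source before the shift
    have hsame : ∀ d : ℕ, d < rs.length → emit (mach π (mach π x)) d = x d := by
      intro d hd
      have h1 : mach π x d = x d := mach_carrier π (i1 d hd)
      have h2 : mach π (mach π x) d = x d := by
        rw [mach_carrier π (by rw [mach_snd]; exact i1 d hd), h1]
      have h3 : ¬ act (mach π (mach π x)) d := by
        intro hh
        rcases d with _ | d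
        · have := hh.1
          rw [HL_mach hπ (HL_mach hπ iH) _ (by norm_num), wl_W0] at this
          exact absurd this (by simp)
        · have := hh.2
          have e1 : ((d + 1 : ℕ) : ℤ) - 1 = (d : ℕ) := by push_cast; ring
          rw [e1, mach_snd, mach_snd] at this
          exact i1 d (by omega) this
      simp only [emit, if_neg h3, h2]
    set w := setU (some p) (emit (mach π (mach π x))) with hw
    have hw0 : ∀ d : ℕ, w d = emit (mach π (mach π x)) d := by
      intro d
      have : ¬ ((d : ℤ) = -1) := by omega
      simp only [hw, setU, if_neg this]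
    have hwm : (w (-1)).2 = some p := by simp [hw, setU]
    have hk : ∀ d : ℕ, d < rs.length + 1 →
        (shK w d).2 = (match d with | 0 => some p | d + 1 => (x d).2) := by
      intro d hd
      rcases d with _ | d
      · simp only [shK]
        simpa using hwm
      · have e1 : ((d + 1 : ℕ) : ℤ) - 1 = (d : ℕ) := by push_cast; ring
        simp only [shK, e1, hw0, hsame d (by omega)]
    have hk' : ∀ d : ℕ, d < rs.length + 1 → (shK w d).2 ≠ none := by
      intro d hd
      rw [hk d hd]
      rcases d with _ | d
      · simp
      · exact i1 d (by omega)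
    have hres : ∀ d : ℕ, Phi π e (some p) x d = pshS (psh e) (shK w d) := fun d => rfl
    -- incoming payload
    have hin : ∀ (d : ℕ) (hd : (m + 1) * d < rs.length + 1), ∃ q,
        shK w d = (q, some ((p :: rs)[(m + 1) * d]'(by simpa using hd))) := by
      intro d hd
      have hd' : d < rs.length + 1 := by nlinarith
      refine ⟨(shK w d).1, Prod.ext rfl ?_⟩
      rw [hk d hd']
      rcases d with _ | d
      · simp
      · have e1 : (m + 1) * (d + 1) = (m + 1) * d + m + 1 := by ring
        have h3 := i3 d (by omega)
        simp only [h3, e1, List.getElem_cons_succ]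
    have hq : ∀ d : ℕ, d < rs.length → (shK w d).1 = (x d).1 := by
      intro d hd
      simp only [shK, hw0, hsame d hd]
    refine ⟨HL_Phi hπ iH, ?_, ?_, ?_⟩
    · intro d hd
      rw [hres]
      have := hk' d (by simpa using hd)
      obtain ⟨v, hv⟩ := Option.ne_none_iff_exists'.mp this
      simp [pshS, hv]
    · intro d a h
      have h' : (m + 1) * d + a < rs.length + 1 := by simpa using h
      have hd0 : (m + 1) * d < rs.length + 1 := by omega
      obtain ⟨q, hq'⟩ := hin d hd0
      rw [hres, hq']
      simp only [pshS, psh_fields]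
      obtain ⟨a, ha⟩ := a
      rcases a with _ | a
      · simp
      · have e1 : (Fin.cons ((p :: rs)[(m + 1) * d]) (e q) : Fin (m + 1) → Bool)
            (Fin.castSucc ⟨a + 1, ha⟩) = e q ⟨a, by omega⟩ := rfl
        rw [e1]
        have hdlt : d < rs.length := by
          simp only at h'
          nlinarith
        have hqq : q = (x d).1 := by
          rw [← hq d hdlt, hq']
        rw [hqq]
        have h2 := i2 d ⟨a, by omega⟩ (by simp only at h' ⊢; omega)
        rw [h2]
        simp only [← add_assoc, List.getElem_cons_succ]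
    · intro d h
      have h' : (m + 1) * d + m < rs.length + 1 := by simpa using h
      have hd0 : (m + 1) * d < rs.length + 1 := by omega
      obtain ⟨q, hq'⟩ := hin d hd0
      rw [hres, hq']
      simp only [pshS, psh]
      rcases Nat.eq_zero_or_pos m with hm | hm
      · subst hm
        simp [Fin.last]
      · obtain ⟨m', rfl⟩ : ∃ m', m = m' + 1 := ⟨m - 1, by omega⟩
        have e1 : (Fin.cons ((p :: rs)[(m' + 1 + 1) * d]) (e q) : Fin (m' + 1 + 1) → Bool)
            (Fin.last (m' + 1)) = e q (Fin.last m') := rfl
        rw [e1]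
        have hdlt : d < rs.length := by nlinarith
        have hqq : q = (x d).1 := by
          rw [← hq d hdlt, hq']
        rw [hqq]
        have h2 := i2 d (Fin.last m') (by simp only [Fin.val_last]; omega)
        rw [h2]
        simp only [Fin.val_last, ← add_assoc, List.getElem_cons_succ]

/-- The length constant. -/
def CC (m : ℕ) : ℕ := (m + 1) * (1 + 2 * (m + 2)) + (m + 2)

/-- The control lemma: every pattern can be forced to the right of a source. -/
theorem control {π : Equiv.Perm (Q G)} (hπ : π (W0 (G := G)).1 = (W0 (G := G)).1)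
    (e : Q G ≃ (Fin m → Bool)) (w : ℕ → St G) (M : ℕ) :
    ∃ B : List (Option Bool), B.length ≤ CC m * M ∧
      ∀ y : Cfg G, HL y → ∀ j : ℕ, j < M → runH π e B y j = w j := by
  let x : Cfg G := fun j => if j < 0 then W0 else w j.toNat
  obtain ⟨τ, -, T, hT, hA⟩ := sweep (π := π) e M 0 x (fun _ => false)
  obtain ⟨us, hus, hrun⟩ := runH_Bk π e T (emb e x M τ)
  set ys := (Bk π e)^[T] (emb e x M τ) with hys
  set D := M + 2 * T with hD
  let tok : ℕ → Bool := fun n =>
    if h : n % (m + 1) < m then e (ys ((n / (m + 1) : ℕ) : ℤ)).1 ⟨n % (m + 1), h⟩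
    else ((ys ((n / (m + 1) : ℕ) : ℤ)).2).getD false
  let rs : List Bool := (List.range ((m + 1) * D)).map tok
  have hlen : rs.length = (m + 1) * D := by simp [rs]
  refine ⟨rs.reverse.map some ++ us, ?_, ?_⟩
  · simp only [List.length_append, List.length_map, List.length_reverse, hlen, hus, CC, hD]
    have hT' : T ≤ (m + 2) * M := by omega
    nlinarith [Nat.mul_le_mul_left (2 * (m + 1)) hT']
  · intro y hy j hj
    obtain ⟨-, s1, s2, s3⟩ := stream hπ e y hy rs
    rw [runH_append]
    -- agreement on the cells `0, ..., D - 1`
    have hag : ∀ d : ℕ, d < D → runH π e (rs.reverse.map some) y d = ys d := by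
      intro d hd
      have hdm : (m + 1) * d + m < (m + 1) * D := by nlinarith
      apply Prod.ext
      · apply e.injective
        funext a
        have ha : (m + 1) * d + a < rs.length := by rw [hlen]; omega
        rw [s2 d a ha]
        have e1 : ((m + 1) * d + a) % (m + 1) = a := by
          rw [Nat.mul_add_mod, Nat.mod_eq_of_lt (by omega)]
        have e2 : ((m + 1) * d + a) / (m + 1) = d := by
          rw [Nat.mul_add_div (by omega), Nat.div_eq_of_lt (by omega), add_zero]
        simp only [rs, List.getElem_map, List.getElem_range, tok]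
        simp only [e1, e2, a.isLt, dite_true]
      · have h3 : (m + 1) * d + m < rs.length := by rw [hlen]; exact hdm
        rw [s3 d h3]
        have e1 : ((m + 1) * d + m) % (m + 1) = m := by
          rw [Nat.mul_add_mod, Nat.mod_eq_of_lt (by omega)]
        have e2 : ((m + 1) * d + m) / (m + 1) = d := by
          rw [Nat.mul_add_div (by omega), Nat.div_eq_of_lt (by omega), add_zero]
        simp only [rs, List.getElem_map, List.getElem_range, tok]
        simp only [e1, e2, lt_irrefl, dite_false]
        have hne := hA d (by omega)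
        obtain ⟨v, hv⟩ := Option.ne_none_iff_exists'.mp hne
        rw [hv]; rfl
    have hHy : HL (runH π e (rs.reverse.map some) y) := (stream hπ e y hy rs).1
    have hHs : HL ys := by
      have : ∀ (T : ℕ) (z : Cfg G), HL z → HL ((Bk π e)^[T] z) := by
        intro T
        induction T with
        | zero => exact fun z h => h
        | succ T ih =>
          intro z h
          rw [Function.iterate_succ_apply]
          exact ih _ (HL_Bk hπ h)
      apply this
      apply HL_emb
      intro j hj
      simp only [x, if_pos hj]
    have hagr2 : Agr ((M : ℤ) + 2 * us.length) (runH π e (rs.reverse.map some) y) ys := by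
      intro j hj
      rcases lt_or_ge j 0 with h | h
      · rw [hHy j h, hHs j h]
      · obtain ⟨d, rfl⟩ : ∃ d : ℕ, j = d := ⟨j.toNat, by omega⟩
        apply hag
        rw [hus] at hj
        omega
    have hfin := agr_runH π e us hagr2 j (by exact_mod_cast hj)
    rw [hfin, hrun, emb_lt (by exact_mod_cast hj)]
    simp [x]

end Pool.Agent.Lib.Q903cf7
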