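import Mathlib

/-!
# Strong universal pattern generators: definitions and general facts on cellular automata
-/

set_option autoImplicit false

namespace Pool.Agent.Lib.Q903cf7

/-- `F` is a one-dimensional cellular automaton: `F(x)_i = f(x_{i-r}, ..., x_{i+r})`. -/
def IsCA {S : Type} (F : (ℤ → S) → (ℤ → S)) : Prop :=
  ∃ (r : ℕ) (f : (Fin (2 * r + 1) → S) → S),
    ∀ (x : ℤ → S) (i : ℤ), F x i = f (fun j => x (i - r + (j : ℕ)))

/-- `x` is a finite configuration with respect to the distinguished state `o`. -/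
def IsFin {S : Type} (o : S) (x : ℤ → S) : Prop := {i : ℤ | x i ≠ o}.Finite

/-- The word `w` appears at position `i` in the configuration `y`. -/
def AppearsAt {S : Type} (w : List S) (i : ℤ) (y : ℤ → S) : Prop :=
  ∀ (j : ℕ) (h : j < w.length), y (i + j) = w[j]

/-- `(F, x)` is a strong universal pattern generator: every word appears at every position in the
orbit of `x`. -/
def StrongUPG {S : Type} (F : (ℤ → S) → (ℤ → S)) (x : ℤ → S) : Prop :=
  ∀ (w : List S) (i : ℤ), ∃ n : ℕ, AppearsAt w i (F^[n] x)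

/-! ### Local equivariant maps are cellular automata -/

/-- Translation of configurations. -/
def tr {S : Type} (k : ℤ) (x : ℤ → S) : ℤ → S := fun j => x (j + k)

/-- Equivariance under translations. -/
def Equi {S : Type} (F : (ℤ → S) → (ℤ → S)) : Prop := ∀ k x, F (tr k x) = tr k (F x)

/-- Locality with radius `r`. -/
def Loc {S : Type} (r : ℕ) (F : (ℤ → S) → (ℤ → S)) : Prop :=
  ∀ (x y : ℤ → S) (i : ℤ), (∀ j : ℤ, i - r ≤ j → j ≤ i + r → x j = y j) → F x i = F y i

lemma Equi.comp {S : Type} {F G : (ℤ → S) → (ℤ → S)} (hF : Equi F) (hG : Equi G) :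
    Equi (F ∘ G) := by
  intro k x
  simp only [Function.comp_apply, hG k x, hF k (G x)]

lemma Loc.comp {S : Type} {r s : ℕ} {F G : (ℤ → S) → (ℤ → S)} (hF : Loc r F) (hG : Loc s G) :
    Loc (r + s) (F ∘ G) := by
  intro x y i h
  apply hF
  intro j h1 h2
  apply hG
  intro k h3 h4
  apply h
  · push_cast; linarith
  · push_cast; linarith

lemma Loc.mono {S : Type} {r s : ℕ} {F : (ℤ → S) → (ℤ → S)} (hF : Loc r F) (h : r ≤ s) :
    Loc s F := by
  intro x y i hh
  have h' : (r : ℤ) ≤ s := by exact_mod_cast h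
  exact hF x y i fun j h1 h2 => hh j (by linarith) (by linarith)

lemma isCA_of {S : Type} {r : ℕ} {F : (ℤ → S) → (ℤ → S)} (h1 : Equi F) (h2 : Loc r F) :
    IsCA F := by
  classical
  refine ⟨r, fun v => F (fun j => if h : 0 ≤ j + r ∧ j + r < 2 * r + 1 then
    v ⟨(j + r).toNat, by omega⟩ else v 0) 0, ?_⟩
  intro x i
  have e : F x i = F (tr i x) 0 := by
    rw [h1]; simp [tr]
  rw [e]
  apply h2
  intro j hj1 hj2
  have hj : 0 ≤ j + r ∧ j + r < 2 * r + 1 := by omega
  rw [dif_pos hj]
  simp only [tr]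
  congr 1
  have : (((j + r).toNat : ℕ) : ℤ) = j + r := Int.toNat_of_nonneg hj.1
  rw [this]
  ring

lemma Equi.iter {S : Type} {F : (ℤ → S) → (ℤ → S)} (hF : Equi F) (k : ℤ) (n : ℕ)
    (x : ℤ → S) : F^[n] (tr k x) = tr k (F^[n] x) := by
  induction n generalizing x with
  | zero => rfl
  | succ n ih => rw [Function.iterate_succ_apply, hF, ih, Function.iterate_succ_apply]

lemma tr_tr {S : Type} (a b : ℤ) (x : ℤ → S) : tr a (tr b x) = tr (a + b) x := by
  funext j; simp only [tr]; congr 1; ring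

lemma tr_zero {S : Type} (x : ℤ → S) : tr 0 x = x := by
  funext j; simp [tr]

end Pool.Agent.Lib.Q903cf7
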