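import Pool.Agent.Lib.Q903cf7.Maps

/-!
# The half line to the right of a source: control lemma
-/

set_option autoImplicit false
set_option linter.unusedSectionVars false

namespace Pool.Agent.Lib.Q903cf7

variable {G m : ℕ} [NeZero G]

/-- The boundary state. -/
def W0 : St G := ((Sig.cp 0, (Ty.w3, 0), Sig.cp 0), none)

/-- Half line configurations: all cells left of the origin are in the boundary state. -/
def HL (x : Cfg G) : Prop := ∀ j : ℤ, j < 0 → x j = W0

/-- Put the input `u` into the carrier slot of the boundary cell. -/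
def setU (u : Option Bool) (x : Cfg G) : Cfg G := fun j => if j = -1 then ((x j).1, u) else x j

/-- The half line step with input `u`. -/
def Phi (π : Equiv.Perm (Q G)) (e : Q G ≃ (Fin m → Bool)) (u : Option Bool) (x : Cfg G) : Cfg G :=
  push e (shK (setU u (emit (mach π (mach π x)))))

/-- The half line backward step. -/
def Bk (π : Equiv.Perm (Q G)) (e : Q G ≃ (Fin m → Bool)) (z : Cfg G) : Cfg G :=
  machI π (machI π (emit (setU none (shKI (pushI e z)))))

lemma Phi_Bk (π : Equiv.Perm (Q G)) (e : Q G ≃ (Fin m → Bool)) (z : Cfg G) :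
    Phi π e (shKI (pushI e z) (-1)).2 (Bk π e z) = z := by
  have h : setU (shKI (pushI e z) (-1)).2 (setU none (shKI (pushI e z))) = shKI (pushI e z) := by
    funext j
    by_cases hj : j = -1
    · subst hj; simp [setU]
    · simp [setU, hj]
  simp only [Phi, Bk, mach_machI, emit_emit, h, shK_shKI, push_pushI]

/-! ### The half line is preserved -/

lemma wl_W0 : wl (W0 (G := G)).1 = true := rfl

lemma disp_W0 : disp (W0 (G := G)).1 = none := by
  simp [disp, W0]

lemma HL_cellP {π : Equiv.Perm (Q G)} (hπ : π (W0 (G := G)).1 = (W0 (G := G)).1) {x : Cfg G}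
    (hx : HL x) : HL (cellP π x) := by
  intro j hj
  simp only [cellP, hx j hj, hπ, ite_self]

lemma HL_edgeX {x : Cfg G} (hx : HL x) : HL (edgeX x) := by
  intro j hj
  have h1 : ¬ link x (j - 1) := by
    intro h
    have := h.2.2.2
    rw [hx (j - 1) (by linarith), wl_W0] at this
    exact absurd this (by simp)
  have h2 : ¬ link x j := by
    intro h
    have := h.2.2.2
    rw [hx j hj, wl_W0] at this
    exact absurd this (by simp)
  simp only [edgeX, if_neg h1, if_neg h2, hx j hj]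

lemma HL_emit {x : Cfg G} (hx : HL x) : HL (emit x) := by
  intro j hj
  simp only [emit, hx j hj, disp_W0, tog_none, ite_self]

lemma HL_machI {π : Equiv.Perm (Q G)} (hπ : π (W0 (G := G)).1 = (W0 (G := G)).1) {x : Cfg G}
    (hx : HL x) : HL (machI π x) := by
  apply HL_cellP _ (HL_edgeX hx)
  rw [Equiv.symm_apply_eq]
  exact hπ.symm

lemma HL_mach {π : Equiv.Perm (Q G)} (hπ : π (W0 (G := G)).1 = (W0 (G := G)).1) {x : Cfg G}
    (hx : HL x) : HL (mach π x) :=
  HL_edgeX (HL_cellP hπ hx)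

lemma pshS_W0 (f : Q G × Bool → Q G × Bool) : pshS f (W0 (G := G)) = W0 := rfl

lemma HL_pre {e : Q G ≃ (Fin m → Bool)} {z : Cfg G} (hz : HL z) :
    HL (setU none (shKI (pushI e z))) := by
  intro j hj
  have h1 : pushI e z j = W0 := by simp only [pushI, hz j hj, pshS_W0]
  by_cases h : j = -1
  · simp only [setU, if_pos h, shKI, h1]
    rfl
  · have h2 : pushI e z (j + 1) = W0 := by
      simp only [pushI, hz (j + 1) (by omega), pshS_W0]
    simp only [setU, if_neg h, shKI, h1, h2]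

lemma HL_Bk {π : Equiv.Perm (Q G)} (hπ : π (W0 (G := G)).1 = (W0 (G := G)).1)
    {e : Q G ≃ (Fin m → Bool)} {z : Cfg G} (hz : HL z) : HL (Bk π e z) :=
  HL_machI hπ (HL_machI hπ (HL_emit (HL_pre hz)))

lemma HL_Phi {π : Equiv.Perm (Q G)} (hπ : π (W0 (G := G)).1 = (W0 (G := G)).1)
    {e : Q G ≃ (Fin m → Bool)} {u : Option Bool} {y : Cfg G} (hy : HL y) : HL (Phi π e u y) := by
  have h := HL_emit (HL_mach hπ (HL_mach hπ hy))
  intro j hj
  have h1 : shK (setU u (emit (mach π (mach π y)))) j = W0 := by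
    have h2 : (setU u (emit (mach π (mach π y))) j).1 = (W0 (G := G)).1 := by
      by_cases hh : j = -1
      · simp only [setU, if_pos hh, h j hj]
      · simp only [setU, if_neg hh, h j hj]
    have h3 : (setU u (emit (mach π (mach π y))) (j - 1)).2 = (W0 (G := G)).2 := by
      simp only [setU, if_neg (show ¬ (j - 1 = -1) by omega), h (j - 1) (by omega)]
    simp only [shK, h2, h3]
  simp only [Phi, push, h1, pshS_W0]

/-! ### Token streams -/

/-- The cell number `d` of the all-carrier configuration with token stream `τ`. -/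
def cellOf (e : Q G ≃ (Fin m → Bool)) (τ : ℕ → Bool) (d : ℕ) : St G :=
  (e.symm (fun a : Fin m => τ ((m + 1) * d + a)), some (τ ((m + 1) * d + m)))

lemma snoc_tok (τ : ℕ → Bool) (c : ℕ) :
    (Fin.snoc (fun a : Fin m => τ (c + a)) (τ (c + m)) : Fin (m + 1) → Bool) =
      fun b : Fin (m + 1) => τ (c + b) := by
  funext b
  refine Fin.lastCases ?_ (fun i => ?_) b
  · simp
  · simp

lemma pshI_cellOf (e : Q G ≃ (Fin m → Bool)) (τ : ℕ → Bool) (d : ℕ) :
    pshS (pshI e) (cellOf e τ d) =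
      (e.symm (fun a : Fin m => τ ((m + 1) * d + a + 1)), some (τ ((m + 1) * d))) := by
  simp only [pshS, cellOf, pshI, Equiv.apply_symm_apply, snoc_tok τ ((m + 1) * d)]
  simp [add_assoc]

/-- Configuration with left part `x` and token stream `τ` from position `φ` on. -/
def emb (e : Q G ≃ (Fin m → Bool)) (x : Cfg G) (φ : ℕ) (τ : ℕ → Bool) : Cfg G := fun j =>
  if j < φ then x j else cellOf e τ (j - φ).toNat

lemma emb_lt {e : Q G ≃ (Fin m → Bool)} {x : Cfg G} {φ : ℕ} {τ : ℕ → Bool} {j : ℤ} (h : j < φ) :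
    emb e x φ τ j = x j := if_pos h

lemma emb_ge {e : Q G ≃ (Fin m → Bool)} {x : Cfg G} {φ : ℕ} {τ : ℕ → Bool} (d : ℕ) :
    emb e x φ τ (φ + d) = cellOf e τ d := by
  simp [emb]

lemma HL_emb {e : Q G ≃ (Fin m → Bool)} {x : Cfg G} (hx : HL x) (φ : ℕ) (τ : ℕ → Bool) :
    HL (emb e x φ τ) := by
  intro j hj
  rw [emb_lt (by omega), hx j hj]

lemma emb_congr {e : Q G ≃ (Fin m → Bool)} {x y : Cfg G} {φ : ℕ} {τ : ℕ → Bool}
    (h : ∀ j : ℤ, j < φ → x j = y j) : emb e x φ τ = emb e y φ τ := by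
  funext j
  by_cases hj : j < φ
  · rw [emb_lt hj, emb_lt hj, h j hj]
  · simp only [emb, if_neg hj]

/-- The configuration after undoing push and shift. -/
lemma pre_ge {e : Q G ≃ (Fin m → Bool)} {x : Cfg G} {φ : ℕ} {τ : ℕ → Bool} (d : ℕ) :
    setU none (shKI (pushI e (emb e x (φ + 1) τ))) ((φ + 1 : ℕ) + d) =
      cellOf e (fun n => τ (n + 1)) d := by
  have h1 : ¬ (((φ + 1 : ℕ) : ℤ) + d = -1) := by omega
  have h2 : (((φ + 1 : ℕ) : ℤ) + d + 1) = ((φ + 1 : ℕ) : ℤ) + (d + 1 : ℕ) := by push_cast; ring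
  simp only [setU, if_neg h1, shKI, pushI, h2, emb_ge, pshI_cellOf]
  simp only [cellOf]
  congr 3

lemma pre_phi {e : Q G ≃ (Fin m → Bool)} {x : Cfg G} {φ : ℕ} {τ : ℕ → Bool} :
    setU none (shKI (pushI e (emb e x (φ + 1) τ))) φ = ((pushI e x φ).1, some (τ 0)) := by
  have h1 : ¬ ((φ : ℤ) = -1) := by omega
  have h2 : ((φ : ℤ) + 1) = ((φ + 1 : ℕ) : ℤ) + (0 : ℕ) := by push_cast; ring
  simp only [setU, if_neg h1, shKI, pushI]
  rw [emb_lt (by push_cast; linarith), h2, emb_ge, pshI_cellOf]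
  simp

lemma pre_lt {e : Q G ≃ (Fin m → Bool)} {x : Cfg G} {φ : ℕ} {τ τ' : ℕ → Bool} (h0 : τ 0 = τ' 0)
    {j : ℤ} (hj : j < (φ + 1 : ℕ)) :
    setU none (shKI (pushI e (emb e x (φ + 1) τ))) j =
      setU none (shKI (pushI e (emb e x (φ + 1) τ'))) j := by
  by_cases hp : j = φ
  · subst hp
    rw [pre_phi, pre_phi, h0]
  · simp only [setU, shKI, pushI]
    rw [emb_lt hj, emb_lt hj, emb_lt (by push_cast at *; omega), emb_lt (by push_cast at *; omega)]

/-- Machine steps do not touch cells with carriers. -/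
lemma machI_carrier (π : Equiv.Perm (Q G)) {y : Cfg G} {j : ℤ} (h : (y j).2 ≠ none) :
    machI π y j = y j := by
  have h1 : ¬ link y (j - 1) := fun hh => h (by
    have := hh.2.2.1
    rwa [sub_add_cancel] at this)
  have h2 : ¬ link y j := fun hh => h hh.2.1
  have h3 : edgeX y j = y j := by simp only [edgeX, if_neg h1, if_neg h2]
  have h4 : ¬ quiet (edgeX y) j := fun hh => h hh.2
  simp only [machI, cellP, if_neg h4, h3]

lemma mach_carrier (π : Equiv.Perm (Q G)) {y : Cfg G} {j : ℤ} (h : (y j).2 ≠ none) :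
    mach π y j = y j := by
  have h4 : ¬ quiet y j := fun hh => h hh.2
  have h5 : cellP π y j = y j := by simp only [cellP, if_neg h4]
  have h1 : ¬ link (cellP π y) (j - 1) := fun hh => h (by
    have := hh.2.2.1
    rw [sub_add_cancel] at this
    exact this)
  have h2 : ¬ link (cellP π y) j := fun hh => h hh.2.1
  simp only [mach, edgeX, if_neg h1, if_neg h2, h5]

lemma machI_snd (π : Equiv.Perm (Q G)) (y : Cfg G) (j : ℤ) : (machI π y j).2 = (y j).2 := rfl

lemma mach_snd (π : Equiv.Perm (Q G)) (y : Cfg G) (j : ℤ) : (mach π y j).2 = (y j).2 := rfl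

/-- Backward machine steps left of a carrier depend only on the left part. -/
lemma machI_dep (π : Equiv.Perm (Q G)) {y y' : Cfg G} {n : ℤ} (h : ∀ j, j < n → y j = y' j)
    (h1 : (y n).2 ≠ none) (h2 : (y' n).2 ≠ none) : ∀ j, j < n → machI π y j = machI π y' j := by
  have hl : ∀ j, j < n → (link y j ↔ link y' j) := by
    intro j hj
    by_cases hn : j + 1 = n
    · constructor
      · intro hh; exact absurd (hn ▸ hh.2.2.1) h1
      · intro hh; exact absurd (hn ▸ hh.2.2.1) h2
    · exact link_congr (h _ (by omega)) (h _ hj) (h _ (by omega))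
  have he : ∀ j, j < n → edgeX y j = edgeX y' j := by
    intro j hj
    have e1 := hl (j - 1) (by omega)
    have e2 := hl j hj
    by_cases hn : j + 1 = n
    · have n1 : ¬ link y j := fun hh => absurd (hn ▸ hh.2.2.1) h1
      have n2 : ¬ link y' j := fun hh => absurd (hn ▸ hh.2.2.1) h2
      simp only [edgeX, e1, if_neg n1, if_neg n2, h j hj, h (j - 1) (by omega)]
    · simp only [edgeX, e1, e2, h j hj, h (j - 1) (by omega), h (j + 1) (by omega)]
  intro j hj
  have hq : quiet (edgeX y) j ↔ quiet (edgeX y') j := by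
    simp only [quiet, he j hj, he (j - 1) (by omega)]
  simp only [machI, cellP, hq, he j hj]

/-- Prepend a register to a token stream. -/
def blk (f : Fin m → Bool) (τ : ℕ → Bool) : ℕ → Bool := fun n =>
  if h : n < m then f ⟨n, h⟩ else τ (n - m)

lemma Bk_ge (π : Equiv.Perm (Q G)) {e : Q G ≃ (Fin m → Bool)} {x : Cfg G} {φ : ℕ}
    {τ : ℕ → Bool} (d : ℕ) :
    Bk π e (emb e x (φ + 1) τ) ((φ + 1 : ℕ) + d) = cellOf e (fun n => τ (n + 1)) d := by
  set z2 := setU none (shKI (pushI e (emb e x (φ + 1) τ))) with hz2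
  have h0 : (z2 φ).2 = some (τ 0) := by rw [hz2, pre_phi]
  have hge : ∀ d : ℕ, z2 ((φ + 1 : ℕ) + d) = cellOf e (fun n => τ (n + 1)) d := fun d => pre_ge d
  have hn : (z2 (((φ + 1 : ℕ) : ℤ) + d - 1)).2 ≠ none := by
    rcases d with _ | d
    · have : ((φ + 1 : ℕ) : ℤ) + (0 : ℕ) - 1 = φ := by push_cast; ring
      rw [this, h0]; simp
    · have : ((φ + 1 : ℕ) : ℤ) + (d + 1 : ℕ) - 1 = ((φ + 1 : ℕ) : ℤ) + d := by push_cast; ring
      rw [this, hge]; simp [cellOf]
  have h3 : emit z2 ((φ + 1 : ℕ) + d) = z2 ((φ + 1 : ℕ) + d) := by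
    have : ¬ act z2 ((φ + 1 : ℕ) + d) := fun hh => hn hh.2
    simp only [emit, if_neg this]
  have h4 : (emit z2 ((φ + 1 : ℕ) + d)).2 ≠ none := by
    rw [h3, hge]; simp [cellOf]
  show machI π (machI π (emit z2)) _ = _
  rw [machI_carrier π (by rw [machI_snd]; exact h4), machI_carrier π h4, h3, hge]

lemma Bk_phi (π : Equiv.Perm (Q G)) {e : Q G ≃ (Fin m → Bool)} {x : Cfg G} {φ : ℕ}
    {τ : ℕ → Bool} :
    (Bk π e (emb e x (φ + 1) τ) φ).2 = none ∨
      (Bk π e (emb e x (φ + 1) τ) φ).2 = some (τ 0) := by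
  set z2 := setU none (shKI (pushI e (emb e x (φ + 1) τ))) with hz2
  have h0 : (z2 φ).2 = some (τ 0) := by rw [hz2, pre_phi]
  show (emit z2 φ).2 = none ∨ (emit z2 φ).2 = some (τ 0)
  simp only [emit, h0]
  by_cases h : act z2 φ
  · rw [if_pos h]
    generalize disp (z2 ↑φ).1 = a
    generalize τ 0 = b
    revert a b; decide
  · rw [if_neg h]; right; rfl

lemma Bk_mis (π : Equiv.Perm (Q G)) {e : Q G ≃ (Fin m → Bool)} (x : Cfg G) (φ : ℕ) :
    ∃ p : Bool, ∀ τ : ℕ → Bool, τ 0 = p → (Bk π e (emb e x (φ + 1) τ) φ).2 ≠ none := by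
  have key : ∃ p : Bool, tog (disp (pushI e x φ).1) (some p) ≠ none := by
    generalize disp (pushI e x ↑φ).1 = a
    revert a; decide
  obtain ⟨p, hp⟩ := key
  refine ⟨p, fun τ hτ => ?_⟩
  set z2 := setU none (shKI (pushI e (emb e x (φ + 1) τ))) with hz2
  have h0 : z2 φ = ((pushI e x φ).1, some p) := by rw [hz2, pre_phi, hτ]
  show (emit z2 φ).2 ≠ none
  simp only [emit, h0]
  by_cases h : act z2 φ
  · rw [if_pos h]; exact hp
  · rw [if_neg h]; simp

lemma Bk_dep (π : Equiv.Perm (Q G)) {e : Q G ≃ (Fin m → Bool)} {x : Cfg G} {φ : ℕ}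
    {τ τ' : ℕ → Bool} (h0 : τ 0 = τ' 0) {j : ℤ} (hj : j < (φ + 1 : ℕ)) :
    Bk π e (emb e x (φ + 1) τ) j = Bk π e (emb e x (φ + 1) τ') j := by
  have key : ∀ τ : ℕ → Bool,
      (emit (setU none (shKI (pushI e (emb e x (φ + 1) τ)))) ((φ + 1 : ℕ) : ℤ)).2 ≠ none := by
    intro τ
    set z2 := setU none (shKI (pushI e (emb e x (φ + 1) τ))) with hz2
    have h0 : (z2 φ).2 = some (τ 0) := by rw [hz2, pre_phi]
    have h1 : z2 ((φ + 1 : ℕ) : ℤ) = cellOf e (fun n => τ (n + 1)) 0 := by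
      have := pre_ge (e := e) (x := x) (φ := φ) (τ := τ) 0
      simpa using this
    have : ¬ act z2 ((φ + 1 : ℕ) : ℤ) := by
      intro hh
      have h2 := hh.2
      have e1 : ((φ + 1 : ℕ) : ℤ) - 1 = φ := by push_cast; ring
      rw [e1, h0] at h2
      exact absurd h2 (by simp)
    simp only [emit, if_neg this, h1, cellOf]
    simp
  have hz : ∀ j : ℤ, j < (φ + 1 : ℕ) →
      emit (setU none (shKI (pushI e (emb e x (φ + 1) τ)))) j =
      emit (setU none (shKI (pushI e (emb e x (φ + 1) τ')))) j := by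
    intro j hj
    have e1 := pre_lt (e := e) (x := x) h0 hj
    have e2 := pre_lt (e := e) (x := x) h0 (show j - 1 < (φ + 1 : ℕ) by omega)
    have ha : act (setU none (shKI (pushI e (emb e x (φ + 1) τ)))) j ↔
        act (setU none (shKI (pushI e (emb e x (φ + 1) τ')))) j := by
      simp only [act, e2]
    simp only [emit, ha, e1]
  exact machI_dep π (machI_dep π hz (key τ) (key τ')) (key τ) (key τ') j hj

lemma Bk_emb_none (π : Equiv.Perm (Q G)) {e : Q G ≃ (Fin m → Bool)} {x : Cfg G} {φ : ℕ}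
    {τ : ℕ → Bool} :
    Bk π e (emb e x (φ + 1) τ) =
      emb e (Bk π e (emb e x (φ + 1) τ)) (φ + 1) (fun n => τ (n + 1)) := by
  funext j
  by_cases hj : j < (φ + 1 : ℕ)
  · rw [emb_lt hj]
  · obtain ⟨d, rfl⟩ : ∃ d : ℕ, j = (φ + 1 : ℕ) + d :=
      ⟨(j - (φ + 1 : ℕ)).toNat, by omega⟩
    rw [emb_ge, Bk_ge]

lemma Bk_emb_some (π : Equiv.Perm (Q G)) {e : Q G ≃ (Fin m → Bool)} {x : Cfg G} {φ : ℕ}
    {τ : ℕ → Bool} (h : (Bk π e (emb e x (φ + 1) τ) φ).2 ≠ none) :
    Bk π e (emb e x (φ + 1) τ) =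
      emb e (Bk π e (emb e x (φ + 1) τ)) φ
        (blk (e (Bk π e (emb e x (φ + 1) τ) φ).1) τ) := by
  have h0 : (Bk π e (emb e x (φ + 1) τ) φ).2 = some (τ 0) := (Bk_phi π).resolve_left h
  set z := Bk π e (emb e x (φ + 1) τ) with hz
  funext j
  by_cases hj : j < (φ : ℕ)
  · rw [emb_lt hj]
  · obtain ⟨d, rfl⟩ : ∃ d : ℕ, j = (φ : ℤ) + d := ⟨(j - φ).toNat, by omega⟩
    rw [emb_ge]
    rcases d with _ | d
    · apply Prod.ext
      · simp only [cellOf, blk]
        rw [Equiv.eq_symm_apply]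
        funext a
        simp
      · simp [cellOf, blk, h0]
    · have e1 : (φ : ℤ) + (d + 1 : ℕ) = ((φ + 1 : ℕ) : ℤ) + d := by push_cast; ring
      rw [e1, hz, Bk_ge]
      simp only [cellOf, blk]
      have hh : ∀ a : ℕ, ¬ ((m + 1) * (d + 1) + a < m) := by
        intro a; nlinarith [Nat.zero_le d, Nat.zero_le a, Nat.zero_le m, Nat.zero_le (m * d)]
      have hh2 : ∀ a : ℕ, (m + 1) * (d + 1) + a - m = (m + 1) * d + a + 1 := by
        intro a
        have : (m + 1) * (d + 1) = (m + 1) * d + (m + 1) := by ring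
        omega
      simp only [hh, hh2, dite_false]

/-- All cells of the half line have carriers. -/
def AllCar (z : Cfg G) : Prop := ∀ j : ℤ, 0 ≤ j → (z j).2 ≠ none

lemma allCar_emb {e : Q G ≃ (Fin m → Bool)} {x : Cfg G} {τ : ℕ → Bool} : AllCar (emb e x 0 τ) := by
  intro j hj
  have : ¬ (j < (0 : ℕ)) := by push_cast; omega
  simp only [emb, if_neg this, cellOf]
  simp

/-- The reversed sweep. -/
theorem sweep {π : Equiv.Perm (Q G)} (e : Q G ≃ (Fin m → Bool)) (φ : ℕ) :
    ∀ (n : ℕ) (x : Cfg G) (τ : ℕ → Bool), ∃ τ' : ℕ → Bool, (∀ i < n, τ' i = τ i) ∧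
      ∃ T ≤ n + (m + 2) * φ, AllCar ((Bk π e)^[T] (emb e x φ τ')) := by
  induction φ with
  | zero => exact fun n x τ => ⟨τ, fun _ _ => rfl, 0, Nat.zero_le _, allCar_emb⟩
  | succ φ IH =>
    -- the step in which the front moves
    have move : ∀ (n : ℕ) (x : Cfg G) (τ : ℕ → Bool),
        (Bk π e (emb e x (φ + 1) τ) φ).2 ≠ none → ∃ τ' : ℕ → Bool,
        (∀ i < n + 1, τ' i = τ i) ∧ ∃ T ≤ m + (n + 1) + (m + 2) * φ + 1,
          AllCar ((Bk π e)^[T] (emb e x (φ + 1) τ')) := by
      intro n x τ h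
      obtain ⟨σ, hσ, T, hT, hA⟩ := IH (m + (n + 1)) (Bk π e (emb e x (φ + 1) τ))
        (blk (e (Bk π e (emb e x (φ + 1) τ) φ).1) τ)
      have hτ' : ∀ i < n + 1, (fun i => σ (i + m)) i = τ i := by
        intro i hi
        show σ (i + m) = τ i
        rw [hσ (i + m) (by omega)]
        simp [blk]
      refine ⟨fun i => σ (i + m), hτ', T + 1, by omega, ?_⟩
      have h0 : (fun i => σ (i + m)) 0 = τ 0 := hτ' 0 (by omega)
      have hd : ∀ j : ℤ, j < (φ + 1 : ℕ) → Bk π e (emb e x (φ + 1) (fun i => σ (i + m))) j =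
          Bk π e (emb e x (φ + 1) τ) j := fun j hj => Bk_dep π h0 hj
      have hs : (Bk π e (emb e x (φ + 1) (fun i => σ (i + m))) φ).2 ≠ none := by
        rw [hd φ (by push_cast; omega)]; exact h
      rw [Function.iterate_succ_apply, Bk_emb_some π hs]
      have e1 : blk (e (Bk π e (emb e x (φ + 1) (fun i => σ (i + m))) φ).1)
          (fun i => σ (i + m)) = σ := by
        funext i
        rw [hd φ (by push_cast; omega)]
        by_cases hi : i < m
        · rw [hσ i (by omega)]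
          simp [blk, hi]
        · simp only [blk, hi, dite_false]
          congr 1; omega
      rw [e1, emb_congr (fun j hj => hd j (by push_cast; omega))]
      exact hA
    intro n
    induction n with
    | zero =>
      intro x τ
      obtain ⟨p, hp⟩ := Bk_mis (e := e) π x φ
      obtain ⟨τ', _, T, hT, hA⟩ := move 0 x (fun _ => p) (hp _ rfl)
      exact ⟨τ', fun i hi => absurd hi (by omega), T, by nlinarith, hA⟩
    | succ n IHn =>
      intro x τ
      by_cases h : (Bk π e (emb e x (φ + 1) τ) φ).2 = none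
      · obtain ⟨σ, hσ, T, hT, hA⟩ := IHn (Bk π e (emb e x (φ + 1) τ)) (fun i => τ (i + 1))
        let τ' : ℕ → Bool := fun i => Nat.casesOn i (τ 0) (fun k => σ k)
        have h0 : τ' 0 = τ 0 := rfl
        have hd : ∀ j : ℤ, j < (φ + 1 : ℕ) → Bk π e (emb e x (φ + 1) τ') j =
            Bk π e (emb e x (φ + 1) τ) j := fun j hj => Bk_dep π h0 hj
        refine ⟨τ', ?_, T + 1, by omega, ?_⟩
        · intro i hi
          rcases i with _ | i
          · rfl
          · exact hσ i (by omega)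
        · rw [Function.iterate_succ_apply, Bk_emb_none π]
          rw [emb_congr hd]
          exact hA
      · obtain ⟨τ', h1, T, hT, hA⟩ := move n x τ h
        exact ⟨τ', h1, T, by nlinarith, hA⟩

end Pool.Agent.Lib.Q903cf7
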