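import Pool.Agent.Lib.Q903cf7.Control

/-!
# The half line to the left of a source, and the interface between the two half lines
-/

set_option autoImplicit false
set_option linter.unusedSectionVars false

namespace Pool.Agent.Lib.Q903cf7

variable {G m : ℕ} [NeZero G]

/-- The cells `-1, -2, ...` have contents `f 0, f 1, ...` and no carriers. -/
def LeftIs (x : Cfg G) (f : ℕ → Q G) : Prop := ∀ n : ℕ, x (-1 - n) = (f n, none)

/-- The machine step on the left half line. -/
def stepL (π : Equiv.Perm (Q G)) (f : ℕ → Q G) : ℕ → Q G := fun n =>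
  ((π (f (n + 1))).2.2, (π (f n)).2.1, if n = 0 then (π (f 0)).2.2 else (π (f (n - 1))).1)

/-- The walls are as expected after the cell permutation. -/
def WOK (π : Equiv.Perm (Q G)) (f : ℕ → Q G) : Prop :=
  wl (π (f 0)) = true ∧ ∀ n, 1 ≤ n → wl (π (f n)) = false

lemma wl_stepL (π : Equiv.Perm (Q G)) (f : ℕ → Q G) (n : ℕ) :
    wl (stepL π f n) = wl (π (f n)) := rfl

lemma left_cellP (π : Equiv.Perm (Q G)) {x : Cfg G} {f : ℕ → Q G} (h : LeftIs x f) (n : ℕ) :
    cellP π x (-1 - n) = (π (f n), none) := by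
  have h1 := h n
  have h2 := h (n + 1)
  have e : (-1 : ℤ) - n - 1 = -1 - (n + 1 : ℕ) := by push_cast; ring
  have hq : quiet x (-1 - n) := by
    refine ⟨?_, ?_⟩
    · rw [e, h2]
    · rw [h1]
  simp only [cellP, if_pos hq, h1]

lemma left_mach (π : Equiv.Perm (Q G)) {x : Cfg G} {f : ℕ → Q G} (h : LeftIs x f)
    (hW : WOK π f) : LeftIs (mach π x) (stepL π f) := by
  have hc := left_cellP π h
  intro n
  have e1 : (-1 : ℤ) - n - 1 = -1 - (n + 1 : ℕ) := by push_cast; ring
  have e2 : (-1 : ℤ) - n - 1 - 1 = -1 - (n + 2 : ℕ) := by push_cast; ring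
  have hl1 : link (cellP π x) (-1 - n - 1) := by
    refine ⟨?_, ?_, ?_, ?_⟩
    · rw [e2, hc]
    · rw [e1, hc]
    · rw [sub_add_cancel, hc]
    · rw [e1, hc]; exact hW.2 _ (by omega)
  have hα : (cellP π x (-1 - n - 1)).1.2.2 = (π (f (n + 1))).2.2 := by rw [e1, hc]
  rcases Nat.eq_zero_or_pos n with h0 | h0
  · subst h0
    have hl2 : ¬ link (cellP π x) (-1 - (0 : ℕ)) := by
      intro hh
      have := hh.2.2.2
      rw [hc, hW.1] at this
      exact absurd this (by simp)
    simp only [mach, edgeX, if_pos hl1, if_neg hl2, hα]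
    rw [hc]
    simp [stepL]
  · have e3 : (-1 : ℤ) - n + 1 = -1 - (n - 1 : ℕ) := by omega
    have hl2 : link (cellP π x) (-1 - n) := by
      refine ⟨?_, ?_, ?_, ?_⟩
      · rw [e1, hc]
      · rw [hc]
      · rw [e3, hc]
      · rw [hc]; exact hW.2 _ h0
    simp only [mach, edgeX, if_pos hl1, if_pos hl2, hα]
    rw [hc, e3, hc]
    simp [stepL, Nat.ne_of_gt h0]

lemma left_post (e : Q G ≃ (Fin m → Bool)) {x : Cfg G} {f : ℕ → Q G} (h : LeftIs x f)
    (hW : ∀ n, 1 ≤ n → wl (f n) = false) :
    LeftIs (push e (shK (emit x))) f ∧ (emit x (-1)).2 = disp (f 0) := by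
  have h1 : ∀ n : ℕ, 1 ≤ n → emit x (-1 - n) = (f n, none) := by
    intro n hn
    simp only [emit, h n, disp_nowall (hW n hn), tog_none, ite_self]
  constructor
  · intro n
    have e1 : (-1 : ℤ) - n - 1 = -1 - (n + 1 : ℕ) := by push_cast; ring
    have h2 : shK (emit x) (-1 - n) = (f n, none) := by
      simp only [shK, e1, h1 (n + 1) (by omega)]
      simp only [emit, h n]
    simp only [push, h2, pshS]
  · have ha : act x (-1) := by
      have := h 1
      have e1 : (-1 : ℤ) - (1 : ℕ) = -1 - 1 := by norm_num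
      rw [e1] at this
      exact ⟨by rw [this]; exact hW 1 le_rfl, by rw [this]⟩
    have h0 := h 0
    simp only [Nat.cast_zero, sub_zero] at h0
    simp [emit, ha, h0, tog]

/-- The part right of the source. -/
def rr (x : Cfg G) : Cfg G := fun j => if j < 0 then W0 else x j

lemma HL_rr (x : Cfg G) : HL (rr x) := fun j hj => if_pos hj

lemma rr_ge {x : Cfg G} {j : ℤ} (h : 0 ≤ j) : rr x j = x j := if_neg (by omega)

lemma rr_cellP {π : Equiv.Perm (Q G)} (hπ : π (W0 (G := G)).1 = (W0 (G := G)).1) {x : Cfg G}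
    (h : (x (-1)).2 = none) : rr (cellP π x) = cellP π (rr x) := by
  funext j
  rcases lt_or_ge j 0 with hj | hj
  · rw [HL_rr _ j hj, HL_cellP hπ (HL_rr x) j hj]
  · rw [rr_ge hj]
    have hq : quiet x j ↔ quiet (rr x) j := by
      rcases hj.eq_or_lt with h0 | h0
      · subst h0
        simp only [quiet, zero_sub, h, rr_ge le_rfl, HL_rr x (-1) (by norm_num)]
        simp [W0]
      · simp only [quiet, rr_ge hj, rr_ge (show 0 ≤ j - 1 by omega)]
    simp only [cellP, hq, rr_ge hj]

lemma rr_edgeX {x : Cfg G} (h : (x (-1)).2 = none) (hw : wl (x (-1)).1 = true) :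
    rr (edgeX x) = edgeX (rr x) := by
  funext j
  rcases lt_or_ge j 0 with hj | hj
  · rw [HL_rr _ j hj, HL_edgeX (HL_rr x) j hj]
  · rw [rr_ge hj]
    rcases hj.eq_or_lt with h0 | h0
    · subst h0
      have n1 : ¬ link x (0 - 1) := by
        intro hh
        have := hh.2.2.2
        rw [zero_sub, hw] at this
        exact absurd this (by simp)
      have n2 : ¬ link (rr x) (0 - 1) := by
        intro hh
        have := hh.2.2.2
        rw [zero_sub, HL_rr x (-1) (by norm_num), wl_W0] at this
        exact absurd this (by simp)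
      have hl : link x 0 ↔ link (rr x) 0 := by
        simp only [link, zero_sub, zero_add, h, rr_ge le_rfl, HL_rr x (-1) (by norm_num),
          rr_ge (show (0 : ℤ) ≤ 1 by norm_num)]
        simp [W0]
      simp only [edgeX, if_neg n1, if_neg n2, hl, rr_ge le_rfl, zero_add,
        rr_ge (show (0 : ℤ) ≤ 1 by norm_num)]
    · rcases (show 1 ≤ j by omega).eq_or_lt with h1 | h1
      · subst h1
        have hl : link x (1 - 1) ↔ link (rr x) (1 - 1) := by
          simp only [link, sub_self, zero_sub, zero_add, h, rr_ge le_rfl,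
            HL_rr x (-1) (by norm_num), rr_ge (show (0 : ℤ) ≤ 1 by norm_num)]
          simp [W0]
        have hl2 : link x 1 ↔ link (rr x) 1 := by
          simp only [link, sub_self, rr_ge le_rfl, rr_ge (show (0 : ℤ) ≤ 1 by norm_num),
            rr_ge (show (0 : ℤ) ≤ 1 + 1 by norm_num)]
        simp only [edgeX, hl, hl2, rr_ge (show (0 : ℤ) ≤ 1 by norm_num),
          rr_ge (show (0 : ℤ) ≤ 1 + 1 by norm_num), rr_ge (show (0 : ℤ) ≤ 1 - 1 by norm_num)]
      · have e0 := rr_ge (x := x) hj
        have e1 := rr_ge (x := x) (show 0 ≤ j - 1 by omega)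
        have e2 := rr_ge (x := x) (show 0 ≤ j + 1 by omega)
        have e3 := rr_ge (x := x) (show 0 ≤ j - 1 - 1 by omega)
        have e4 := rr_ge (x := x) (show 0 ≤ j - 1 + 1 by omega)
        have l1 : link x (j - 1) ↔ link (rr x) (j - 1) := link_congr e3.symm e1.symm e4.symm
        have l2 : link x j ↔ link (rr x) j := link_congr e1.symm e0.symm e2.symm
        simp only [edgeX, l1, l2, e0, e1, e2]

lemma rr_mach {π : Equiv.Perm (Q G)} (hπ : π (W0 (G := G)).1 = (W0 (G := G)).1) {x : Cfg G}
    {f : ℕ → Q G} (h : LeftIs x f) (hW : WOK π f) : rr (mach π x) = mach π (rr x) := by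
  have h0 := left_cellP π h 0
  simp only [Nat.cast_zero, sub_zero] at h0
  have h1 := h 0
  simp only [Nat.cast_zero, sub_zero] at h1
  show rr (edgeX (cellP π x)) = edgeX (cellP π (rr x))
  rw [rr_edgeX (by rw [h0]) (by rw [h0]; exact hW.1), rr_cellP hπ (by rw [h1])]

lemma rr_post {π : Equiv.Perm (Q G)} (hπ : π (W0 (G := G)).1 = (W0 (G := G)).1)
    (e : Q G ≃ (Fin m → Bool)) {x : Cfg G} {f : ℕ → Q G} (h : LeftIs x f)
    (hw0 : wl (f 0) = true) (hW : ∀ n, 1 ≤ n → wl (f n) = false) :
    rr (push e (shK (emit x))) = push e (shK (setU (disp (f 0)) (emit (rr x)))) := by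
  have h0 := h 0
  simp only [Nat.cast_zero, sub_zero] at h0
  obtain ⟨-, hu⟩ := left_post e h hW
  funext j
  rcases lt_or_ge j 0 with hj | hj
  · rw [HL_rr _ j hj]
    have hE := HL_emit (HL_rr x)
    have h2 : (setU (disp (f 0)) (emit (rr x)) j).1 = (W0 (G := G)).1 := by
      by_cases hh : j = -1
      · simp only [setU, if_pos hh, hE j hj]
      · simp only [setU, if_neg hh, hE j hj]
    have h3 : (setU (disp (f 0)) (emit (rr x)) (j - 1)).2 = (W0 (G := G)).2 := by
      simp only [setU, if_neg (show ¬ (j - 1 = -1) by omega), hE (j - 1) (by omega)]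
    simp only [push, shK, h2, h3]
    rfl
  · rw [rr_ge hj]
    have hem : ∀ j : ℤ, 0 ≤ j → emit x j = emit (rr x) j := by
      intro j hj
      rcases hj.eq_or_lt with h1 | h1
      · subst h1
        have n1 : ¬ act x 0 := by
          intro hh
          have := hh.1
          rw [zero_sub, h0, hw0] at this
          exact absurd this (by simp)
        have n2 : ¬ act (rr x) 0 := by
          intro hh
          have := hh.1
          rw [zero_sub, HL_rr x (-1) (by norm_num), wl_W0] at this
          exact absurd this (by simp)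
        simp only [emit, if_neg n1, if_neg n2, rr_ge le_rfl]
      · have ha : act x j ↔ act (rr x) j := by
          simp only [act, rr_ge (x := x) (show 0 ≤ j - 1 by omega)]
        simp only [emit, ha, rr_ge hj]
    have hs : shK (emit x) j = shK (setU (disp (f 0)) (emit (rr x))) j := by
      rcases hj.eq_or_lt with h1 | h1
      · subst h1
        simp only [shK, zero_sub, setU]
        rw [hem 0 le_rfl, hu]
        simp
      · simp only [shK, setU, if_neg (show ¬ (j = -1) by omega),
          if_neg (show ¬ (j - 1 = -1) by omega), hem j hj, hem (j - 1) (by omega)]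
    simp only [push, hs]

/-- One step of the automaton seen from the two half lines. -/
lemma step_CA {π : Equiv.Perm (Q G)} (hπ : π (W0 (G := G)).1 = (W0 (G := G)).1)
    (e : Q G ≃ (Fin m → Bool)) {x : Cfg G} {f : ℕ → Q G} (h : LeftIs x f)
    (hW : WOK π f) (hW' : WOK π (stepL π f)) :
    LeftIs (CA π e x) (stepL π (stepL π f)) ∧
      rr (CA π e x) = Phi π e (disp (stepL π (stepL π f) 0)) (rr x) := by
  have h1 := left_mach π h hW
  have h2 := left_mach π h1 hW'
  refine ⟨(left_post e h2 hW'.2).1, ?_⟩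
  show rr (push e (shK (emit (mach π (mach π x))))) = _
  rw [rr_post hπ e h2 hW'.1 hW'.2, rr_mach hπ h1 hW', rr_mach hπ h hW]
  rfl

/-- Several steps. -/
lemma run_CA {π : Equiv.Perm (Q G)} (hπ : π (W0 (G := G)).1 = (W0 (G := G)).1)
    (e : Q G ≃ (Fin m → Bool)) (f : ℕ → Q G) (t : ℕ) :
    ∀ x : Cfg G, LeftIs x f → (∀ τ < 2 * t, WOK π ((stepL π)^[τ] f)) →
    LeftIs ((CA π e)^[t] x) ((stepL π)^[2 * t] f) ∧
      rr ((CA π e)^[t] x) =
        runH π e ((List.range t).map fun i => disp ((stepL π)^[2 * (i + 1)] f 0)) (rr x) := by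
  induction t with
  | zero => exact fun x h _ => ⟨h, rfl⟩
  | succ t ih =>
    intro x h hW
    obtain ⟨h1, h2⟩ := ih x h (fun τ hτ => hW τ (by omega))
    have w1 := hW (2 * t) (by omega)
    have w2 := hW (2 * t + 1) (by omega)
    rw [Function.iterate_succ_apply'] at w2
    obtain ⟨h3, h4⟩ := step_CA hπ e h1 w1 w2
    have e1 : (stepL π)^[2 * (t + 1)] f = stepL π (stepL π ((stepL π)^[2 * t] f)) := by
      rw [show 2 * (t + 1) = 2 * t + 1 + 1 by ring, Function.iterate_succ_apply',
        Function.iterate_succ_apply']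
    rw [Function.iterate_succ_apply', e1]
    refine ⟨h3, ?_⟩
    rw [h4, h2, List.range_succ, List.map_append, runH_append, List.map_singleton, e1]
    rfl

end Pool.Agent.Lib.Q903cf7
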