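import Pool.Agent.Lib.Q903cf7.Sweep

/-!
# The machine: rounds, overflow, and emitted words
-/

set_option autoImplicit false
set_option linter.unusedSectionVars false

namespace Pool.Agent.Lib.Q903cf7

open Sig Ty

variable {G m : ℕ} [NeZero G]

/-- The digit number `j` (from `1` on) of `v` in base `3`. -/
def Dg (v j : ℕ) : Fin 3 := Fin.ofNat 3 (v / 3 ^ (j - 1))

/-- The carry into digit `j` when `v` is incremented. -/
def cy (v j : ℕ) : Bool := decide (3 ^ (j - 1) ∣ v + 1)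

lemma ofNat3_succ (n : ℕ) : Fin.ofNat 3 (n + 1) = Fin.ofNat 3 n + 1 := by
  apply Fin.ext
  simp [Fin.ofNat, Fin.val_add]

lemma ofNat3_eq_two (n : ℕ) : Fin.ofNat 3 n = 2 ↔ 3 ∣ n + 1 := by
  rw [Fin.ext_iff]
  show n % 3 = 2 ↔ 3 ∣ n + 1
  omega

lemma Dg_succ (v j : ℕ) : Dg (v + 1) j = if cy v j then Dg v j + 1 else Dg v j := by
  have hs : (v + 1) / 3 ^ (j - 1) = v / 3 ^ (j - 1) + if 3 ^ (j - 1) ∣ v + 1 then 1 else 0 :=
    Nat.succ_div
  unfold Dg cy
  rw [hs]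
  by_cases h : 3 ^ (j - 1) ∣ v + 1
  · rw [if_pos h, ofNat3_succ, if_pos (by simpa using h)]
  · rw [if_neg h, if_neg (by simpa using h), add_zero]

lemma cy_succ (v j : ℕ) (hj : 1 ≤ j) : cy v (j + 1) = (cy v j && decide (Dg v j = 2)) := by
  obtain ⟨k, rfl⟩ : ∃ k, j = k + 1 := ⟨j - 1, by omega⟩
  unfold cy Dg
  simp only [Nat.add_sub_cancel]
  rw [Bool.eq_iff_iff]
  simp only [decide_eq_true_eq, Bool.and_eq_true, ofNat3_eq_two]
  have hs : (v + 1) / 3 ^ k = v / 3 ^ k + if 3 ^ k ∣ v + 1 then 1 else 0 := Nat.succ_div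
  constructor
  · intro h
    have h1 : 3 ^ k ∣ v + 1 := (Dvd.intro _ (pow_succ 3 k).symm).trans h
    refine ⟨h1, ?_⟩
    rw [if_pos h1] at hs
    rw [← hs]
    exact (Nat.dvd_div_iff_mul_dvd h1).mpr (by rwa [← pow_succ])
  · rintro ⟨h1, h2⟩
    rw [if_pos h1] at hs
    rw [← hs] at h2
    rw [pow_succ]
    exact (Nat.dvd_div_iff_mul_dvd h1).mp h2

lemma cy_one (v : ℕ) : cy v 1 = true := by simp [cy]

/-- Cell symbols of the machine memory: `ℓ` digits of `v`, then blanks. -/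
def cD (G : ℕ) [NeZero G] (ℓ v : ℕ) (j : ℕ) : Ty × Fin G :=
  if j ≤ ℓ then (dig (Dg v j), 0) else (bl, 0)

section rules
variable {π : Equiv.Perm (Q G)} (hπ : Rule π)
include hπ

lemma rule_W0 : π (W0 (G := G)).1 = (W0 (G := G)).1 := hπ .fix

lemma rule_garb (ℓ v j : ℕ) (y : Fin 3) : π (cp 0, cD G ℓ v j, cp y) = (cp y, cD G ℓ v j, cp 0) := by
  unfold cD
  split_ifs
  · exact hπ (.pass 0 _ y)
  · exact hπ (.blank y)

omit hπ in
lemma cD_wall (ℓ v j : ℕ) : (cD G ℓ v j).1.wall = false := by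
  unfold cD
  split_ifs <;> rfl

lemma swp_normal (ℓ v : ℕ) (i : Fin G) (hv : v + 1 < 3 ^ ℓ) :
    Swp π ℓ (cD G ℓ v) (cD G ℓ (v + 1)) (fun j => lam (cy v j))
      (fun n => if n ≤ ℓ then cp (Dg v n) else if n = ℓ + 1 then ret else cp 0) i where
  first := by simp [cy_one]
  go := by
    intro j hj hj'
    simp only [cD, if_pos hj', Dg_succ, cy_succ v j hj]
    exact hπ (.head (cy v j) (Dg v j))
  turn := by
    have h1 : ¬ (ℓ + 1 ≤ ℓ) := by omega
    have h2 : cy v (ℓ + 1) = false := by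
      simp only [cy, Nat.add_sub_cancel, decide_eq_false_iff_not]
      exact fun h => absurd (Nat.le_of_dvd (by omega) h) (by omega)
    simp only [cD, if_neg h1, h2, if_true]
    exact hπ .turn
  pass := by
    intro j n y hj hjn hn
    have h1 : j ≤ ℓ := by omega
    simp only [cD, if_pos h1]
    by_cases h2 : n ≤ ℓ
    · simp only [if_pos h2]
      exact hπ (.pass _ _ y)
    · have h3 : n = ℓ + 1 := by omega
      subst h3
      simp only [if_neg h2, if_true]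
      exact hπ (.passR _ y)
  passN := fun j y _ => rule_garb hπ _ _ j y
  passO := fun j y _ => rule_garb hπ _ _ j y
  garb := fun n _ hn => ⟨Dg v n, by simp only [if_pos hn]⟩
  zero := fun n hn => by
    have h1 : ¬ (n ≤ ℓ) := by omega
    have h2 : ¬ (n = ℓ + 1) := by omega
    simp only [if_neg h1, if_neg h2]
  same := fun j hj => by
    have h1 : ¬ (j ≤ ℓ) := by omega
    simp only [cD, if_neg h1]
  wallO := fun j _ => cD_wall _ _ j
  wallN := fun j _ => cD_wall _ _ j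
  idle := fun a => hπ (.idle i a)
  launch := hπ (.go i)

lemma swp_over (ℓ v : ℕ) (i : Fin G) (hv : v + 1 = 3 ^ ℓ) :
    Swp π (ℓ + 1) (cD G ℓ v) (cD G (ℓ + 1) 0) (fun j => if j ≤ ℓ + 1 then lam true else gam)
      (fun n => if n ≤ ℓ then cp (Dg v n) else if n = ℓ + 2 then ovf else cp 0) i where
  first := by simp
  go := by
    intro j hj hj'
    have hcy : ∀ j, 1 ≤ j → j ≤ ℓ + 1 → cy v j = true := by
      intro j h1 h2
      simp only [cy, hv, decide_eq_true_eq]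
      exact pow_dvd_pow 3 (by omega)
    simp only [if_pos hj', cD]
    by_cases h : j ≤ ℓ
    · have h2 : Dg v j = 2 := by
        have h3 := cy_succ v j hj
        rw [hcy (j + 1) (by omega) (by omega), hcy j hj hj'] at h3
        simpa using h3.symm
      have h4 : j + 1 ≤ ℓ + 1 := by omega
      have h5 : Dg 0 j = 0 := by simp [Dg]
      simp only [if_pos h, if_pos h4, h2, h5]
      exact hπ (.head true 2)
    · have h4 : ¬ (j + 1 ≤ ℓ + 1) := by omega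
      have h5 : Dg 0 j = 0 := by simp [Dg]
      have h6 : ¬ (j = ℓ + 2) := by omega
      simp only [if_neg h, if_neg h4, if_neg h6, h5]
      exact hπ .grow
  turn := by
    have h1 : ¬ (ℓ + 1 + 1 ≤ ℓ) := by omega
    have h2 : ¬ (ℓ + 1 + 1 ≤ ℓ + 1) := by omega
    simp only [cD, if_neg h1, if_neg h2, if_true]
    exact hπ .turnO
  pass := by
    intro j n y hj hjn hn
    have h1 : j ≤ ℓ + 1 := by omega
    simp only [cD, if_pos h1]
    by_cases h2 : n ≤ ℓ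
    · simp only [if_pos h2]
      exact hπ (.pass _ _ y)
    · by_cases h3 : n = ℓ + 2
      · subst h3
        simp only [if_neg h2, if_true]
        exact hπ (.passO _ y)
      · simp only [if_neg h2, if_neg h3]
        exact hπ (.pass 0 _ y)
  passN := fun j y _ => rule_garb hπ _ _ j y
  passO := fun j y _ => rule_garb hπ _ _ j y
  garb := fun n _ hn => by
    by_cases h : n ≤ ℓ
    · exact ⟨Dg v n, by simp only [if_pos h]⟩
    · exact ⟨0, by simp only [if_neg h, if_neg (show ¬ n = ℓ + 2 by omega)]⟩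
  zero := fun n hn => by
    have h1 : ¬ (n ≤ ℓ) := by omega
    have h2 : ¬ (n = ℓ + 2) := by omega
    simp only [if_neg h1, if_neg h2]
  same := fun j hj => by
    have h1 : ¬ (j ≤ ℓ) := by omega
    have h2 : ¬ (j ≤ ℓ + 1) := by omega
    simp only [cD, if_neg h1, if_neg h2]
  wallO := fun j _ => cD_wall _ _ j
  wallN := fun j _ => cD_wall _ _ j
  idle := fun a => hπ (.idle i a)
  launch := hπ (.go i)

/-- A calm step whose wall emits garbage. -/
lemma calm_garb {c0 c0' : Ty × Fin G} {s : Sig} {c : ℕ → Ty × Fin G} {f : ℕ → Q G} {a : Fin 3}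
    (h : Calm s c0 c f) (h0 : π (s, c0, cp 0) = (cp a, c0', cp 0)) (hw : c0'.1.wall = true)
    (hp : ∀ j (y : Fin 3), 1 ≤ j → π (cp 0, c j, cp y) = (cp y, c j, cp 0))
    (hc : ∀ j, 1 ≤ j → (c j).1.wall = false) :
    WOK π f ∧ Calm (cp 0) c0' c (stepL π f) := by
  obtain ⟨h1, h2, h3⟩ := calm_step h.2 (by rw [h.1]; exact h0) hw hp hc
  refine ⟨h1, h2, fun j hj => ?_⟩
  obtain ⟨y, h4, h5⟩ := h3 j hj
  rcases h5 with ⟨-, rfl⟩ | ⟨-, b, rfl⟩
  · exact ⟨a, h4⟩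
  · exact ⟨b, h4⟩

end rules

/-- The configuration is at the start of a round: source at `s`, `ℓ` digits with value `v`,
source counter `i`. -/
def OnSt (s : ℤ) (ℓ : ℕ) (i : Fin G) (v : ℕ) (x : Cfg G) : Prop :=
  ∃ f, Calm (cp 0) (bs, i) (cD G ℓ v) f ∧ LeftIs (tr (s + 1) x) f

/-- A round with two wait steps at the end. -/
lemma round_gen {π : Equiv.Perm (Q G)} (hπ : Rule π) (e : Q G ≃ (Fin m → Bool)) {L ℓ ℓ' v v' : ℕ}
    {sg E : ℕ → Sig} {i i' : Fin G} (S : Swp π L (cD G ℓ v) (cD G ℓ' v') sg E i)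
    {a : Fin 3} (hr : π (E (L + 1), (b, i), cp 0) = (cp a, (bss, i'), cp 0))
    {s : ℤ} {x : Cfg G} (h : OnSt s ℓ i v x) : OnSt s ℓ' i' v' ((CA π e)^[L + 2] x) := by
  obtain ⟨f, hf, hl⟩ := h
  obtain ⟨w1, -, w3⟩ := sweep_run S hf
  obtain ⟨c1, c2⟩ := calm_garb hπ w3 hr rfl S.passN S.wallN
  obtain ⟨c3, c4⟩ := calm_garb hπ c2 (hπ (.wait i')) rfl S.passN S.wallN
  have i1 : stepL π ((stepL π)^[2 * L + 2] f) = (stepL π)^[2 * L + 2 + 1] f :=
    (Function.iterate_succ_apply' _ _ _).symm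
  have i2 : stepL π ((stepL π)^[2 * L + 2 + 1] f) = (stepL π)^[2 * L + 2 + 1 + 1] f :=
    (Function.iterate_succ_apply' _ _ _).symm
  rw [i1] at c3 c4
  rw [i2] at c4
  have hW : ∀ τ < 2 * (L + 2), WOK π ((stepL π)^[τ] f) := by
    intro τ hτ
    rcases lt_or_ge τ (2 * L + 2) with h1 | h1
    · exact w1 τ h1
    · rcases h1.eq_or_lt with h2 | h2
      · rw [← h2]; exact c1
      · have : τ = 2 * L + 2 + 1 := by omega
        rw [this]; exact c3
  obtain ⟨r1, -⟩ := run_CA (rule_W0 hπ) e f (L + 2) (tr (s + 1) x) hl hW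
  rw [(equi_CA π e).iter] at r1
  exact ⟨_, by rw [show 2 * (L + 2) = 2 * L + 2 + 1 + 1 by ring]; exact c4, r1⟩

lemma on_normal {π : Equiv.Perm (Q G)} (hπ : Rule π) (e : Q G ≃ (Fin m → Bool)) {ℓ v : ℕ}
    {i : Fin G} {s : ℤ} {x : Cfg G} (hv : v + 1 < 3 ^ ℓ) (h : OnSt s ℓ i v x) :
    OnSt s ℓ i (v + 1) ((CA π e)^[ℓ + 2] x) := by
  refine round_gen hπ e (swp_normal hπ ℓ v i hv) (a := 1) ?_ h
  have h1 : ¬ (ℓ + 1 ≤ ℓ) := by omega
  simp only [if_neg h1, if_true]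
  exact hπ (.recR i)

lemma on_over {π : Equiv.Perm (Q G)} (hπ : Rule π) (e : Q G ≃ (Fin m → Bool)) {ℓ v : ℕ}
    {i : Fin G} {s : ℤ} {x : Cfg G} (hv : v + 1 = 3 ^ ℓ) (hi : i.val + 1 < G)
    (h : OnSt s ℓ i v x) :
    OnSt s (ℓ + 1) ⟨i.val + 1, hi⟩ 0 ((CA π e)^[ℓ + 1 + 2] x) := by
  refine round_gen hπ e (swp_over hπ ℓ v i hv) (a := 2) ?_ h
  have h1 : ¬ (ℓ + 1 + 1 ≤ ℓ) := by omega
  simp only [if_neg h1, if_true]
  exact hπ (.recO i hi)

lemma cD_shift (ℓ j : ℕ) : cD G (ℓ + 1) 0 (j + 1) = cD G ℓ 0 j := by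
  unfold cD
  by_cases h : j ≤ ℓ
  · rw [if_pos (by omega), if_pos h]
    simp [Dg]
  · rw [if_neg (by omega), if_neg h]

lemma on_last {π : Equiv.Perm (Q G)} (hπ : Rule π) (e : Q G ≃ (Fin m → Bool)) {ℓ v : ℕ}
    {i : Fin G} {s : ℤ} {x : Cfg G} (hv : v + 1 = 3 ^ ℓ) (hi : ¬ i.val + 1 < G)
    (h : OnSt s ℓ i v x) :
    OnSt (s - 1) ℓ (0 : Fin G) 0 ((CA π e)^[ℓ + 1 + 1 + 1] x) := by
  obtain ⟨f, hf, hl⟩ := h
  have S := swp_over hπ ℓ v i hv
  obtain ⟨w1, -, w3⟩ := sweep_run S hf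
  obtain ⟨r1, -⟩ := run_CA (rule_W0 hπ) e f (ℓ + 1 + 1) (tr (s + 1) x) hl (fun τ hτ =>
    w1 τ (by omega))
  rw [show 2 * (ℓ + 1 + 1) = 2 * (ℓ + 1) + 2 by ring] at r1
  set g := (stepL π)^[2 * (ℓ + 1) + 2] f with hg
  set X := (CA π e)^[ℓ + 1 + 1] (tr (s + 1) x) with hX
  -- first machine step
  have h1 : ¬ (ℓ + 1 + 1 ≤ ℓ) := by omega
  simp only [if_neg h1, if_true] at w3
  obtain ⟨k1, k2, k3⟩ := calm_step w3.2 (by rw [w3.1]; exact hπ (.recL i hi)) rfl S.passN S.wallN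
  have l1 := left_mach π r1 k1
  -- second machine step, based at the next cell
  let g0 : ℕ → Q G := fun n => stepL π g (n + 1)
  have l2 : LeftIs (tr (-1) (mach π X)) g0 := by
    intro n
    have := l1 (n + 1)
    show mach π X (-1 - n + -1) = _
    rw [← this]
    congr 1
    push_cast; ring
  have hc1 : cD G (ℓ + 1) 0 1 = (dig 0, 0) := by
    simp [cD, Dg]
  have q0 : π (g0 0) = (cp 1, (bs, 0), cp 0) := by
    obtain ⟨y, h4, h5⟩ := k3 1 le_rfl
    rcases h5 with ⟨-, rfl⟩ | ⟨h6, -⟩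
    · show π (stepL π g 1) = _
      rw [h4, hc1]
      exact hπ .create
    · exact absurd rfl h6
  have qt : ∀ j, 1 ≤ j → ∃ a : Fin 3, g0 j = (cp 0, cD G ℓ 0 j, cp a) := by
    intro j hj
    obtain ⟨y, h4, h5⟩ := k3 (j + 1) (by omega)
    obtain ⟨-, a, rfl⟩ := h5.resolve_left (fun hh => absurd hh.1 (by omega))
    exact ⟨a, by show stepL π g (j + 1) = _; rw [h4, cD_shift]⟩
  obtain ⟨m1, m2, m3⟩ := calm_step qt q0 rfl (fun j y _ => rule_garb hπ _ _ j y)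
    (fun j _ => cD_wall _ _ j)
  have l3 := left_mach π l2 m1
  have hwn : ∀ n, 1 ≤ n → wl (stepL π g0 n) = false := by
    intro n hn
    obtain ⟨y, h4, -⟩ := m3 n hn
    rw [h4]
    exact cD_wall _ _ n
  have l4 := (left_post e l3 hwn).1
  rw [equi_mach π, equi_emit, equi_shK, equi_push] at l4
  have hfin : push e (shK (emit (mach π (mach π X)))) = tr (s + 1) ((CA π e)^[ℓ + 1 + 1 + 1] x) := by
    rw [← (equi_CA π e).iter, Function.iterate_succ_apply']
    rfl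
  rw [hfin, tr_tr] at l4
  refine ⟨stepL π g0, ⟨m2, fun j hj => ?_⟩, ?_⟩
  rotate_left
  · rw [show s - 1 + 1 = -1 + (s + 1) by ring]
    exact l4
  · obtain ⟨y, h4, h5⟩ := m3 j hj
    rcases h5 with ⟨-, rfl⟩ | ⟨-, a, rfl⟩
    · exact ⟨1, h4⟩
    · exact ⟨a, h4⟩

/-- The code of an input. -/
def code : Option Bool → Fin 3
  | none => 0
  | some false => 1
  | some true => 2

lemma disp_code (i : Fin G) (u : Option Bool) : disp ((cp (code u), (b, i), cp 0) : Q G) = u := by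
  rcases u with _ | _ | _ <;> simp [disp, code, wl, Ty.wall]

/-- The emitted word. -/
lemma on_emit {π : Equiv.Perm (Q G)} (hπ : Rule π) (e : Q G ≃ (Fin m → Bool)) {ℓ v : ℕ}
    {i : Fin G} {s : ℤ} {x : Cfg G} (hv : v < 3 ^ ℓ) (h : OnSt s ℓ i v x)
    (B : List (Option Bool)) (hB : B.length ≤ ℓ)
    (hD : ∀ (k : ℕ) (hk : k < B.length), Dg v (k + 1) = code B[k]) :
    rr (tr (s + 1) ((CA π e)^[B.length] x)) = runH π e B (rr (tr (s + 1) x)) := by
  obtain ⟨f, hf, hl⟩ := h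
  have key : (∀ τ < 2 * B.length, WOK π ((stepL π)^[τ] f)) ∧
      (∀ t, 1 ≤ t → t ≤ B.length → (stepL π)^[2 * t] f 0 = (cp (Dg v t), (b, i), cp 0)) := by
    rcases (show v + 1 < 3 ^ ℓ ∨ v + 1 = 3 ^ ℓ by omega) with h1 | h1
    · obtain ⟨w1, w2, -⟩ := sweep_run (swp_normal hπ ℓ v i h1) hf
      refine ⟨fun τ hτ => w1 τ (by omega), fun t ht ht' => ?_⟩
      rw [w2 t ht (by omega), if_pos (by omega)]
    · obtain ⟨w1, w2, -⟩ := sweep_run (swp_over hπ ℓ v i h1) hf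
      refine ⟨fun τ hτ => w1 τ (by omega), fun t ht ht' => ?_⟩
      rw [w2 t ht (by omega), if_pos (by omega)]
  obtain ⟨-, r2⟩ := run_CA (rule_W0 hπ) e f B.length (tr (s + 1) x) hl key.1
  rw [(equi_CA π e).iter] at r2
  rw [r2]
  congr 1
  apply List.ext_getElem
  · simp
  · intro k h1 h2
    simp only [List.getElem_map, List.getElem_range]
    rw [key.2 (k + 1) (by omega) (by omega), hD k h2, disp_code]

end Pool.Agent.Lib.Q903cf7
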