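import Pool.Agent.Lib.Q903cf7.Machine

/-!
# Existence of a strong universal pattern generator
-/

set_option autoImplicit false
set_option linter.unusedSectionVars false

namespace Pool.Agent.Lib.Q903cf7

open Sig Ty

section
variable {G m : ℕ} [NeZero G]

/-- The distinguished state. -/
def oo : St G := ((cp 0, (bl, 0), cp 0), none)

/-- The initial configuration. -/
def x0 : Cfg G := fun j =>
  if j = -1 then ((cp 0, (bs, 0), cp 0), none)
  else if j = -2 then ((cp 0, (dig 0, 0), cp 0), none) else oo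

lemma x0_fin : IsFin oo (x0 (G := G)) := by
  apply (Set.toFinite ({-1, -2} : Set ℤ)).subset
  intro j hj
  by_contra h
  simp only [Set.mem_insert_iff, Set.mem_singleton_iff, not_or] at h
  apply hj
  simp [x0, h.1, h.2]

lemma x0_on : OnSt (-1) 1 (0 : Fin G) 0 (x0 (G := G)) := by
  refine ⟨fun n => (x0 (-1 - n)).1, ⟨?_, ?_⟩, ?_⟩
  · simp [x0]
  · intro j hj
    rcases hj.eq_or_lt with h | h
    · subst h
      exact ⟨0, by simp [x0, cD, Dg]⟩
    · have h1 : ¬ ((-1 : ℤ) - j = -1) := by omega
      have h2 : ¬ ((-1 : ℤ) - j = -2) := by omega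
      have h3 : ¬ (j ≤ 1) := by omega
      exact ⟨0, by simp only [x0, if_neg h1, if_neg h2, cD, if_neg h3, oo]⟩
  · intro n
    have : (tr (-1 + 1) (x0 (G := G))) = x0 := by rw [show (-1 : ℤ) + 1 = 0 by norm_num, tr_zero]
    rw [this]
    apply Prod.ext
    · rfl
    · simp only [x0]
      split_ifs <;> rfl

variable {π : Equiv.Perm (Q G)} (hπ : Rule π) (e : Q G ≃ (Fin m → Bool))

/-- The state of the machine is reached from the initial configuration. -/
def Rch (π : Equiv.Perm (Q G)) (e : Q G ≃ (Fin m → Bool)) (s : ℤ) (ℓ : ℕ) (i : Fin G)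
    (v : ℕ) : Prop := ∃ t, OnSt s ℓ i v ((CA π e)^[t] x0)

include hπ in
lemma rch_add {s : ℤ} {ℓ : ℕ} {i : Fin G} (h : Rch π e s ℓ i 0) (v : ℕ) (hv : v < 3 ^ ℓ) :
    Rch π e s ℓ i v := by
  induction v with
  | zero => exact h
  | succ v ih =>
    obtain ⟨t, ht⟩ := ih (by omega)
    refine ⟨ℓ + 2 + t, ?_⟩
    rw [Function.iterate_add_apply]
    exact on_normal hπ e hv ht

include hπ in
lemma rch_over {s : ℤ} {ℓ : ℕ} (h : Rch π e s ℓ 0 0) (k : ℕ) (hk : k < G) :
    Rch π e s (ℓ + k) ⟨k, hk⟩ 0 := by
  induction k with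
  | zero =>
    have : (⟨0, hk⟩ : Fin G) = 0 := rfl
    rw [this]; exact h
  | succ k ih =>
    have h1 := ih (by omega)
    have h3 : 0 < 3 ^ (ℓ + k) := by positivity
    obtain ⟨t, ht⟩ := rch_add hπ e h1 (3 ^ (ℓ + k) - 1) (by omega)
    refine ⟨ℓ + k + 1 + 2 + t, ?_⟩
    rw [Function.iterate_add_apply]
    exact on_over hπ e (by omega) hk ht

include hπ in
lemma rch_last {s : ℤ} {ℓ : ℕ} (h : Rch π e s ℓ 0 0) : Rch π e (s - 1) (ℓ + (G - 1)) 0 0 := by
  have hG : 0 < G := Nat.pos_of_ne_zero (NeZero.ne G)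
  have h1 := rch_over hπ e h (G - 1) (by omega)
  have h3 : 0 < 3 ^ (ℓ + (G - 1)) := by positivity
  obtain ⟨t, ht⟩ := rch_add hπ e h1 (3 ^ (ℓ + (G - 1)) - 1) (by omega)
  refine ⟨ℓ + (G - 1) + 1 + 1 + 1 + t, ?_⟩
  rw [Function.iterate_add_apply]
  exact on_last hπ e (by omega) (by simp only; omega) ht

include hπ in
lemma rch_all (n : ℕ) : Rch π e (-1 - n) (1 + n * (G - 1)) 0 0 := by
  induction n with
  | zero =>
    refine ⟨0, ?_⟩
    simpa using x0_on
  | succ n ih =>
    have := rch_last hπ e ih
    rw [show (-1 : ℤ) - (n + 1 : ℕ) = -1 - n - 1 by push_cast; ring,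
      show 1 + (n + 1) * (G - 1) = 1 + n * (G - 1) + (G - 1) by ring]
    exact this

end

/-! ### Numbers with prescribed digits -/

/-- The number with base `3` digits the codes of the list. -/
def val : List (Option Bool) → ℕ
  | [] => 0
  | u :: us => (code u).val + 3 * val us

lemma val_lt (B : List (Option Bool)) : val B < 3 ^ B.length := by
  induction B with
  | nil => simp [val]
  | cons u us ih =>
    have := (code u).isLt
    simp only [val, List.length_cons, pow_succ]
    omega

lemma val_Dg (B : List (Option Bool)) : ∀ (k : ℕ) (hk : k < B.length),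
    Dg (val B) (k + 1) = code B[k] := by
  induction B with
  | nil => intro k hk; exact absurd hk (by simp)
  | cons u us ih =>
    intro k hk
    rcases k with _ | k
    · apply Fin.ext
      show (val (u :: us) / 3 ^ (0 + 1 - 1)) % 3 = (code u).val
      have := (code u).isLt
      simp only [val, Nat.zero_add, Nat.sub_self, pow_zero, Nat.div_one]
      omega
    · have h1 := ih k (by simpa using hk)
      rw [List.getElem_cons_succ, ← h1]
      apply Fin.ext
      show (val (u :: us) / 3 ^ (k + 1 + 1 - 1)) % 3 = (val us / 3 ^ (k + 1 - 1)) % 3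
      simp only [Nat.add_sub_cancel, val]
      rw [pow_succ', ← Nat.div_div_eq_div_mul]
      have := (code u).isLt
      rw [show ((code u).val + 3 * val us) / 3 = val us by omega]

section
variable {G m : ℕ} [NeZero G]

theorem strong {π : Equiv.Perm (Q G)} (hπ : Rule π) (e : Q G ≃ (Fin m → Bool))
    (hC : CC m + 1 ≤ G - 1) : StrongUPG (CA π e) (x0 (G := G)) := by
  intro w i
  -- choice of the position of the source
  set n : ℕ := CC m * (i.natAbs + w.length) + i.natAbs + 1 with hn
  set s : ℤ := -1 - n with hs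
  set ℓ := 1 + n * (G - 1) with hℓ
  have hsi : s < i := by omega
  set g : ℕ := (i - s - 1).toNat with hg
  have hgi : (g : ℤ) = i - s - 1 := by omega
  -- the pattern and the control word
  let ω : ℕ → St G := fun j => if h : g ≤ j ∧ j - g < w.length then w[j - g] else oo
  obtain ⟨B, hB1, hB2⟩ := control (rule_W0 hπ) e ω (g + w.length)
  have hlen : B.length ≤ ℓ := by
    have h1 : g ≤ i.natAbs + n := by omega
    have h2 : CC m * (g + w.length) ≤ CC m * (i.natAbs + n + w.length) :=
      Nat.mul_le_mul_left _ (by omega)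
    have h3 : n * (CC m + 1) ≤ n * (G - 1) := Nat.mul_le_mul_left _ hC
    have h4 : CC m * (i.natAbs + n + w.length) = CC m * (i.natAbs + w.length) + n * CC m := by ring
    have h5 : n * (CC m + 1) = n * CC m + n := by ring
    omega
  -- reach the state
  have hv : val B < 3 ^ ℓ :=
    (val_lt B).trans_le (Nat.pow_le_pow_right (by norm_num) hlen)
  obtain ⟨t, ht⟩ := rch_add hπ e (rch_all hπ e n) (val B) hv
  have hem := on_emit hπ e hv ht B hlen (val_Dg B)
  refine ⟨B.length + t, ?_⟩
  intro j hj
  have h1 := hB2 (rr (tr (s + 1) ((CA π e)^[t] x0))) (HL_rr _) (g + j) (by omega)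
  rw [← hem] at h1
  rw [rr_ge (by omega)] at h1
  rw [Function.iterate_add_apply]
  have e1 : (i + j : ℤ) = ((g + j : ℕ) : ℤ) + (s + 1) := by push_cast; omega
  have h2 : ω (g + j) = w[j] := by
    simp only [ω]
    rw [dif_pos ⟨by omega, by omega⟩]
    congr 1; omega
  rw [e1, ← h2, ← h1]
  rfl

lemma CA_zero {π : Equiv.Perm (Q G)} (hπ : Rule π) (e : Q G ≃ (Fin m → Bool)) :
    CA π e (fun _ => oo) = fun _ => oo := by
  have h0 : π (cp 0, (bl, 0), cp 0) = (cp 0, (bl, 0), cp 0) := hπ (.blank 0)
  have h1 : cellP π (fun _ => oo) = fun _ => oo := by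
    funext j
    simp only [cellP, oo, h0, ite_self]
  have h2 : edgeX (fun _ => (oo : St G)) = fun _ => oo := by
    funext j
    simp only [edgeX, oo]
    split_ifs <;> rfl
  have h3 : mach π (fun _ => oo) = fun _ => oo := by
    simp only [mach, h1, h2]
  have h4 : emit (fun _ => (oo : St G)) = fun _ => oo := by
    funext j
    have : disp (oo : St G).1 = none := by simp [disp, oo, wl, Ty.wall]
    simp only [emit, this, tog_none, ite_self]
  have h5 : shK (fun _ => (oo : St G)) = fun _ => oo := rfl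
  have h6 : push e (fun _ => (oo : St G)) = fun _ => oo := rfl
  simp only [CA, h3, h4, h5, h6]

end

/-- There is a reversible one-dimensional cellular automaton with quiescent distinguished state
and a finite configuration which form a strong universal pattern generator. -/
theorem main : ∃ (S : Type) (_ : Fintype S) (o : S) (F F' : (ℤ → S) → (ℤ → S)) (x : ℤ → S),
    Fintype.card S = 3 * 2 ^ 22 ∧
    IsCA F ∧ IsCA F' ∧ Function.LeftInverse F' F ∧ Function.RightInverse F' F ∧
    F (fun _ => o) = (fun _ => o) ∧ IsFin o x ∧ StrongUPG F x := by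
  have : NeZero 2048 := ⟨by norm_num⟩
  obtain ⟨π, hπ⟩ := exists_rule (G := 2048)
  have hcard : Fintype.card (Q 2048) = Fintype.card (Fin 22 → Bool) := by
    rw [card_Q, Fintype.card_fun, Fintype.card_fin, Fintype.card_bool]
    norm_num
  let e : Q 2048 ≃ (Fin 22 → Bool) := Fintype.equivOfCardEq hcard
  have hS : Fintype.card (St 2048) = 3 * 2 ^ 22 := by
    rw [Fintype.card_prod, card_Q, Fintype.card_option, Fintype.card_bool]
    norm_num
  exact ⟨St 2048, inferInstance, oo, CA π e, CAI π e, x0, hS, isCA_CA π e, isCA_CAI π e,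
    CAI_CA π e, CA_CAI π e, CA_zero hπ e, x0_fin, strong hπ e (by simp [CC])⟩

end Pool.Agent.Lib.Q903cf7
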