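import Pool.Agent.Lib.Q903cf7.Rule

/-!
# The cellular automaton
-/

set_option autoImplicit false
set_option linter.unusedSectionVars false

namespace Pool.Agent.Lib.Q903cf7

variable {G m : ℕ} [NeZero G]

/-- States: content and carrier slot. -/
abbrev St (G : ℕ) := Q G × Option Bool

/-- Configurations. -/
abbrev Cfg (G : ℕ) := ℤ → St G

/-- Is the content a wall? -/
def wl (q : Q G) : Bool := q.2.1.1.wall

/-- Quiet cells. -/
def quiet (x : Cfg G) (j : ℤ) : Prop := (x (j - 1)).2 = none ∧ (x j).2 = none

instance (x : Cfg G) (j : ℤ) : Decidable (quiet x j) := inferInstanceAs (Decidable (_ ∧ _))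

/-- Permute the contents of quiet cells. -/
def cellP (π : Equiv.Perm (Q G)) (x : Cfg G) : Cfg G := fun j =>
  (if quiet x j then π (x j).1 else (x j).1, (x j).2)

/-- The edge `(j, j + 1)` is active. -/
def link (x : Cfg G) (j : ℤ) : Prop :=
  (x (j - 1)).2 = none ∧ (x j).2 = none ∧ (x (j + 1)).2 = none ∧ wl (x j).1 = false

instance (x : Cfg G) (j : ℤ) : Decidable (link x j) := inferInstanceAs (Decidable (_ ∧ _))

/-- Swap the ports across active edges. -/
def edgeX (x : Cfg G) : Cfg G := fun j =>
  ((if link x (j - 1) then (x (j - 1)).1.2.2 else (x j).1.1,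
    (x j).1.2.1,
    if link x j then (x (j + 1)).1.1 else (x j).1.2.2), (x j).2)

/-- One machine step. -/
def mach (π : Equiv.Perm (Q G)) (x : Cfg G) : Cfg G := edgeX (cellP π x)

/-- Inverse of the machine step. -/
def machI (π : Equiv.Perm (Q G)) (x : Cfg G) : Cfg G := cellP π.symm (edgeX x)

/-- The payload displayed by a wall cell. -/
def disp (q : Q G) : Option Bool :=
  if wl q then (if q.1 = Sig.cp 1 then some false else if q.1 = Sig.cp 2 then some true else none)
  else none

/-- Toggle `k` between `none` and `e`. -/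
def tog (e k : Option Bool) : Option Bool := if k = none then e else if k = e then none else k

/-- The left neighbour is no wall and has no carrier. -/
def act (x : Cfg G) (j : ℤ) : Prop := wl (x (j - 1)).1 = false ∧ (x (j - 1)).2 = none

instance (x : Cfg G) (j : ℤ) : Decidable (act x j) := inferInstanceAs (Decidable (_ ∧ _))

/-- Emission. -/
def emit (x : Cfg G) : Cfg G := fun j =>
  ((x j).1, if act x j then tog (disp (x j).1) (x j).2 else (x j).2)

/-- Shift of the carriers. -/
def shK (x : Cfg G) : Cfg G := fun j => ((x j).1, (x (j - 1)).2)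

/-- Inverse shift of the carriers. -/
def shKI (x : Cfg G) : Cfg G := fun j => ((x j).1, (x (j + 1)).2)

/-- The register operation: push a payload into the register, pop one out. -/
def psh (e : Q G ≃ (Fin m → Bool)) (r : Q G × Bool) : Q G × Bool :=
  (e.symm (fun a => (Fin.cons r.2 (e r.1) : Fin (m + 1) → Bool) a.castSucc),
    (Fin.cons r.2 (e r.1) : Fin (m + 1) → Bool) (Fin.last m))

/-- Inverse register operation. -/
def pshI (e : Q G ≃ (Fin m → Bool)) (r : Q G × Bool) : Q G × Bool :=
  (e.symm (fun a => (Fin.snoc (e r.1) r.2 : Fin (m + 1) → Bool) a.succ),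
    (Fin.snoc (e r.1) r.2 : Fin (m + 1) → Bool) 0)

/-- Register operation on a state. -/
def pshS (f : Q G × Bool → Q G × Bool) (s : St G) : St G :=
  match s.2 with
  | none => s
  | some p => ((f (s.1, p)).1, some (f (s.1, p)).2)

/-- Register operations at all carriers. -/
def push (e : Q G ≃ (Fin m → Bool)) (x : Cfg G) : Cfg G := fun j => pshS (psh e) (x j)

/-- Inverse of `push`. -/
def pushI (e : Q G ≃ (Fin m → Bool)) (x : Cfg G) : Cfg G := fun j => pshS (pshI e) (x j)

/-- The cellular automaton. -/
def CA (π : Equiv.Perm (Q G)) (e : Q G ≃ (Fin m → Bool)) (x : Cfg G) : Cfg G :=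
  push e (shK (emit (mach π (mach π x))))

/-- Its inverse. -/
def CAI (π : Equiv.Perm (Q G)) (e : Q G ≃ (Fin m → Bool)) (x : Cfg G) : Cfg G :=
  machI π (machI π (emit (shKI (pushI e x))))

/-! ### Inverses -/

lemma tog_tog (e k : Option Bool) : tog e (tog e k) = k := by
  revert e k; decide

lemma tog_none (k : Option Bool) : tog none k = k := by
  revert k; decide

lemma disp_nowall {q : Q G} (h : wl q = false) : disp q = none := by
  simp [disp, h]

lemma emit_emit (x : Cfg G) : emit (emit x) = x := by
  funext j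
  have key : ∀ i, wl (x i).1 = false → (emit x i).2 = (x i).2 := by
    intro i hi
    simp only [emit, disp_nowall hi, tog_none, ite_self]
  apply Prod.ext
  · rfl
  · have hact : act (emit x) j ↔ act x j := by
      constructor
      · rintro ⟨h1, h2⟩
        exact ⟨h1, by rw [← key _ h1]; exact h2⟩
      · rintro ⟨h1, h2⟩
        exact ⟨h1, by rw [key _ h1]; exact h2⟩
    show (if act (emit x) j then tog (disp (x j).1) (emit x j).2 else (emit x j).2) = (x j).2
    by_cases h : act x j
    · rw [if_pos (hact.mpr h)]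
      simp only [emit, if_pos h, tog_tog]
    · rw [if_neg (fun hh => h (hact.mp hh))]
      simp only [emit, if_neg h]

lemma link_edgeX (x : Cfg G) (j : ℤ) : link (edgeX x) j ↔ link x j := Iff.rfl

lemma edgeX_edgeX (x : Cfg G) : edgeX (edgeX x) = x := by
  funext j
  apply Prod.ext
  · apply Prod.ext
    · show (if link (edgeX x) (j - 1) then (edgeX x (j - 1)).1.2.2 else (edgeX x j).1.1) = _
      simp only [link_edgeX]
      by_cases h : link x (j - 1)
      · rw [if_pos h]
        simp only [edgeX, if_pos h]
        congr 3; ring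
      · rw [if_neg h]
        simp only [edgeX, if_neg h]
    · apply Prod.ext
      · rfl
      · show (if link (edgeX x) j then (edgeX x (j + 1)).1.1 else (edgeX x j).1.2.2) = _
        simp only [link_edgeX]
        have e1 : j + 1 - 1 = j := by ring
        by_cases h : link x j
        · rw [if_pos h]
          simp only [edgeX, e1, if_pos h]
        · rw [if_neg h]
          simp only [edgeX, if_neg h]
  · rfl

lemma cellP_symm (π : Equiv.Perm (Q G)) (x : Cfg G) : cellP π.symm (cellP π x) = x := by
  funext j
  apply Prod.ext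
  · show (if quiet (cellP π x) j then π.symm (cellP π x j).1 else (cellP π x j).1) = _
    have : quiet (cellP π x) j ↔ quiet x j := Iff.rfl
    simp only [this]
    by_cases h : quiet x j
    · rw [if_pos h]; simp [cellP, h]
    · rw [if_neg h]; simp [cellP, h]
  · rfl

lemma cellP_symm' (π : Equiv.Perm (Q G)) (x : Cfg G) : cellP π (cellP π.symm x) = x :=
  cellP_symm π.symm x

lemma machI_mach (π : Equiv.Perm (Q G)) (x : Cfg G) : machI π (mach π x) = x := by
  simp only [machI, mach, edgeX_edgeX, cellP_symm]

lemma mach_machI (π : Equiv.Perm (Q G)) (x : Cfg G) : mach π (machI π x) = x := by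
  simp only [machI, mach, edgeX_edgeX, cellP_symm']

lemma pshI_psh (e : Q G ≃ (Fin m → Bool)) (r : Q G × Bool) : pshI e (psh e r) = r := by
  have : (Fin.snoc (e (psh e r).1) (psh e r).2 : Fin (m + 1) → Bool) = Fin.cons r.2 (e r.1) := by
    simp only [psh, Equiv.apply_symm_apply]
    exact Fin.snoc_init_self (Fin.cons r.2 (e r.1) : Fin (m + 1) → Bool)
  simp only [pshI, this, Fin.cons_zero, Fin.cons_succ, Equiv.symm_apply_apply]

lemma psh_pshI (e : Q G ≃ (Fin m → Bool)) (r : Q G × Bool) : psh e (pshI e r) = r := by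
  have : (Fin.cons (pshI e r).2 (e (pshI e r).1) : Fin (m + 1) → Bool) = Fin.snoc (e r.1) r.2 := by
    simp only [pshI, Equiv.apply_symm_apply]
    exact Fin.cons_self_tail (Fin.snoc (e r.1) r.2 : Fin (m + 1) → Bool)
  simp only [psh, this, Fin.snoc_castSucc, Fin.snoc_last, Equiv.symm_apply_apply]

lemma pshS_pshS {f g : Q G × Bool → Q G × Bool} (h : ∀ r, f (g r) = r) (s : St G) :
    pshS f (pshS g s) = s := by
  obtain ⟨q, k⟩ := s
  cases k with
  | none => rfl
  | some p =>
    simp only [pshS, Prod.mk.eta, h]

lemma pushI_push (e : Q G ≃ (Fin m → Bool)) (x : Cfg G) : pushI e (push e x) = x := by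
  funext j; exact pshS_pshS (pshI_psh e) _

lemma push_pushI (e : Q G ≃ (Fin m → Bool)) (x : Cfg G) : push e (pushI e x) = x := by
  funext j; exact pshS_pshS (psh_pshI e) _

lemma shKI_shK (x : Cfg G) : shKI (shK x) = x := by
  funext j; simp [shKI, shK]

lemma shK_shKI (x : Cfg G) : shK (shKI x) = x := by
  funext j; simp [shKI, shK]

lemma CAI_CA (π : Equiv.Perm (Q G)) (e : Q G ≃ (Fin m → Bool)) (x : Cfg G) :
    CAI π e (CA π e x) = x := by
  simp only [CAI, CA, pushI_push, shKI_shK, emit_emit, machI_mach]

lemma CA_CAI (π : Equiv.Perm (Q G)) (e : Q G ≃ (Fin m → Bool)) (x : Cfg G) :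
    CA π e (CAI π e x) = x := by
  simp only [CAI, CA, push_pushI, shK_shKI, emit_emit, mach_machI]

/-! ### Both are cellular automata -/

lemma equi_cellP (π : Equiv.Perm (Q G)) : Equi (cellP π) := by
  intro k x; funext j
  have e1 : j + k - 1 = j - 1 + k := by ring
  have h : quiet (tr k x) j ↔ quiet x (j + k) := by simp only [quiet, tr, e1]
  simp only [cellP, h]
  rfl

lemma link_tr (k : ℤ) (x : Cfg G) (j : ℤ) : link (tr k x) j ↔ link x (j + k) := by
  have e1 : j + k - 1 = j - 1 + k := by ring
  have e2 : j + k + 1 = j + 1 + k := by ring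
  simp only [link, tr, e1, e2]

lemma equi_edgeX : Equi (edgeX (G := G)) := by
  intro k x; funext j
  have e1 : j + k - 1 = j - 1 + k := by ring
  have e2 : j + k + 1 = j + 1 + k := by ring
  simp only [edgeX, link_tr]
  simp only [tr, edgeX, e1, e2]

lemma equi_emit : Equi (emit (G := G)) := by
  intro k x; funext j
  have e1 : j + k - 1 = j - 1 + k := by ring
  have h : act (tr k x) j ↔ act x (j + k) := by simp only [act, tr, e1]
  simp only [emit, h]
  rfl

lemma equi_shK : Equi (shK (G := G)) := by
  intro k x; funext j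
  have e1 : j + k - 1 = j - 1 + k := by ring
  simp only [shK, tr, e1]

lemma equi_shKI : Equi (shKI (G := G)) := by
  intro k x; funext j
  have e1 : j + k + 1 = j + 1 + k := by ring
  simp only [shKI, tr, e1]

lemma equi_push (e : Q G ≃ (Fin m → Bool)) : Equi (push e) := by
  intro k x; rfl

lemma equi_pushI (e : Q G ≃ (Fin m → Bool)) : Equi (pushI e) := by
  intro k x; rfl

lemma loc_cellP (π : Equiv.Perm (Q G)) : Loc 1 (cellP π) := by
  intro x y i h
  have h1 := h (i - 1) (by norm_num) (by norm_num; linarith)
  have h2 := h i (by norm_num) (by norm_num)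
  have hq : quiet x i ↔ quiet y i := by simp only [quiet, h1, h2]
  simp only [cellP, hq, h2]

lemma link_congr {x y : Cfg G} {i : ℤ} (h1 : x (i - 1) = y (i - 1)) (h2 : x i = y i)
    (h3 : x (i + 1) = y (i + 1)) : link x i ↔ link y i := by
  simp only [link, h1, h2, h3]

lemma loc_edgeX : Loc 2 (edgeX (G := G)) := by
  intro x y i h
  have h0 := h (i - 1 - 1) (by push_cast; linarith) (by push_cast; linarith)
  have h1 := h (i - 1) (by push_cast; linarith) (by push_cast; linarith)
  have h2 := h i (by push_cast; linarith) (by push_cast; linarith)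
  have h3 := h (i + 1) (by push_cast; linarith) (by push_cast; linarith)
  have h4 := h (i - 1 + 1) (by push_cast; linarith) (by push_cast; linarith)
  have l1 := link_congr h1 h2 h3
  have l2 := link_congr h0 h1 h4
  simp only [edgeX, l1, l2, h1, h2, h3]

lemma loc_emit : Loc 1 (emit (G := G)) := by
  intro x y i h
  have h1 := h (i - 1) (by norm_num) (by norm_num; linarith)
  have h2 := h i (by norm_num) (by norm_num)
  have hq : act x i ↔ act y i := by simp only [act, h1]
  simp only [emit, hq, h2]

lemma loc_shK : Loc 1 (shK (G := G)) := by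
  intro x y i h
  have h1 := h (i - 1) (by norm_num) (by norm_num; linarith)
  have h2 := h i (by norm_num) (by norm_num)
  simp only [shK, h1, h2]

lemma loc_shKI : Loc 1 (shKI (G := G)) := by
  intro x y i h
  have h1 := h (i + 1) (by norm_num; linarith) (by norm_num)
  have h2 := h i (by norm_num) (by norm_num)
  simp only [shKI, h1, h2]

lemma loc_push (e : Q G ≃ (Fin m → Bool)) : Loc 0 (push e) := by
  intro x y i h
  have h2 := h i (by norm_num) (by norm_num)
  simp only [push, h2]

lemma loc_pushI (e : Q G ≃ (Fin m → Bool)) : Loc 0 (pushI e) := by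
  intro x y i h
  have h2 := h i (by norm_num) (by norm_num)
  simp only [pushI, h2]

lemma equi_mach (π : Equiv.Perm (Q G)) : Equi (mach π) := equi_edgeX.comp (equi_cellP π)

lemma loc_mach (π : Equiv.Perm (Q G)) : Loc (2 + 1) (mach π) := loc_edgeX.comp (loc_cellP π)

lemma equi_machI (π : Equiv.Perm (Q G)) : Equi (machI π) := (equi_cellP _).comp equi_edgeX

lemma loc_machI (π : Equiv.Perm (Q G)) : Loc (1 + 2) (machI π) := (loc_cellP _).comp loc_edgeX

lemma equi_CA (π : Equiv.Perm (Q G)) (e : Q G ≃ (Fin m → Bool)) : Equi (CA π e) :=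
  (equi_push e).comp (equi_shK.comp (equi_emit.comp ((equi_mach π).comp (equi_mach π))))

lemma isCA_CA (π : Equiv.Perm (Q G)) (e : Q G ≃ (Fin m → Bool)) : IsCA (CA π e) :=
  isCA_of (equi_CA π e)
    ((loc_push e).comp (loc_shK.comp (loc_emit.comp ((loc_mach π).comp (loc_mach π)))))

lemma isCA_CAI (π : Equiv.Perm (Q G)) (e : Q G ≃ (Fin m → Bool)) : IsCA (CAI π e) :=
  isCA_of ((equi_machI π).comp ((equi_machI π).comp (equi_emit.comp (equi_shKI.comp
    (equi_pushI e)))))
    ((loc_machI π).comp ((loc_machI π).comp (loc_emit.comp (loc_shKI.comp (loc_pushI e)))))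

end Pool.Agent.Lib.Q903cf7
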