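import Pool.Agent.Lib.Q903cf7.Defs

/-!
# The cell permutation of the machine
-/

set_option autoImplicit false

namespace Pool.Agent.Lib.Q903cf7

/-- Port symbols. -/
inductive Sig
  | cp (a : Fin 3) | lam (c : Bool) | ret | ovf | conv | gam | pad (a : Fin 7)
  deriving DecidableEq, Fintype

/-- Types of cell symbols. -/
inductive Ty
  | bl | dig (a : Fin 3) | w3 | b | bs | bss
  deriving DecidableEq, Fintype

/-- Wall symbols. -/
def Ty.wall : Ty → Bool
  | bl => false
  | dig _ => false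
  | w3 => true
  | b => true
  | bs => true
  | bss => true

/-- Cell contents: left port, cell symbol, right port. -/
abbrev Q (G : ℕ) := Sig × (Ty × Fin G) × Sig

lemma card_Sig : Fintype.card Sig = 16 := rfl
lemma card_Ty : Fintype.card Ty = 8 := rfl

lemma card_Q (G : ℕ) : Fintype.card (Q G) = 2048 * G := by
  simp [Q, Fintype.card_prod, card_Sig, card_Ty]
  ring

variable {G : ℕ} [NeZero G]

/-- Transition labels. -/
inductive Tr (G : ℕ)
  | pass (a : Fin 3) (d : Fin 3) (y : Fin 3)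
  | passR (d : Fin 3) (y : Fin 3)
  | passO (d : Fin 3) (y : Fin 3)
  | head (c : Bool) (d : Fin 3)
  | create
  | blank (y : Fin 3)
  | turn
  | grow
  | turnO
  | idle (i : Fin G) (a : Fin 3)
  | recR (i : Fin G)
  | recO (i : Fin G) (h : i.val + 1 < G)
  | recL (i : Fin G) (h : ¬ i.val + 1 < G)
  | wait (i : Fin G)
  | go (i : Fin G)
  | fix

open Sig Ty

/-- Source of a transition. -/
def src : Tr G → Q G
  | .pass a d y => (cp a, (dig d, 0), cp y)
  | .passR d y => (ret, (dig d, 0), cp y)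
  | .passO d y => (ovf, (dig d, 0), cp y)
  | .head c d => (cp 0, (dig d, 0), lam c)
  | .create => (cp 0, (dig 0, 0), conv)
  | .blank y => (cp 0, (bl, 0), cp y)
  | .turn => (cp 0, (bl, 0), lam false)
  | .grow => (cp 0, (bl, 0), lam true)
  | .turnO => (cp 0, (bl, 0), gam)
  | .idle i a => (cp a, (b, i), cp 0)
  | .recR i => (ret, (b, i), cp 0)
  | .recO i _ => (ovf, (b, i), cp 0)
  | .recL i _ => (ovf, (b, i), cp 0)
  | .wait i => (cp 0, (bss, i), cp 0)
  | .go i => (cp 0, (bs, i), cp 0)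
  | .fix => (cp 0, (w3, 0), cp 0)

/-- Target of a transition. -/
def dst : Tr G → Q G
  | .pass a d y => (cp y, (dig d, 0), cp a)
  | .passR d y => (cp y, (dig d, 0), ret)
  | .passO d y => (cp y, (dig d, 0), ovf)
  | .head c d => (lam (c && decide (d = 2)), (dig (if c then d + 1 else d), 0), cp d)
  | .create => (cp 1, (bs, 0), cp 0)
  | .blank y => (cp y, (bl, 0), cp 0)
  | .turn => (cp 0, (bl, 0), ret)
  | .grow => (gam, (dig 0, 0), cp 0)
  | .turnO => (cp 0, (bl, 0), ovf)
  | .idle i a => (cp a, (b, i), cp 0)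
  | .recR i => (cp 1, (bss, i), cp 0)
  | .recO i h => (cp 2, (bss, ⟨i.val + 1, h⟩), cp 0)
  | .recL _ _ => (conv, (w3, 0), cp 0)
  | .wait i => (cp 0, (bs, i), cp 0)
  | .go i => (lam true, (b, i), cp 0)
  | .fix => (cp 0, (w3, 0), cp 0)

lemma src_inj : Function.Injective (src (G := G)) := by
  intro s t h
  rcases s with _|_|_|_|_|_|_|_|_|_|_|⟨i, hi⟩|⟨i, hi⟩|_|_|_ <;>
    rcases t with _|_|_|_|_|_|_|_|_|_|_|⟨j, hj⟩|⟨j, hj⟩|_|_|_ <;>
    simp_all [src] <;> (exfalso; subst h; omega)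

lemma head_aux (c c' : Bool) (d d' : Fin 3)
    (h : (if c then d + 1 else d) = (if c' then d' + 1 else d')) (hd : d = d') : c = c' := by
  subst hd
  revert c c' d
  decide

lemma dst_inj : Function.Injective (dst (G := G)) := by
  intro s t h
  rcases s with _|_|_|⟨c, d⟩|_|_|_|_|_|_|_|⟨i, hi⟩|⟨i, hi⟩|_|_|_ <;>
    rcases t with _|_|_|⟨c', d'⟩|_|_|_|_|_|_|_|⟨j, hj⟩|⟨j, hj⟩|_|_|_ <;>
    simp only [dst, Prod.mk.injEq, reduceCtorEq, false_and, and_false, and_true, true_and,
      Sig.cp.injEq, Sig.lam.injEq, Ty.dig.injEq, Fin.mk.injEq, Fin.isValue,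
      Fin.reduceEq, zero_ne_one] at h <;>
    first
      | rfl
      | (obtain ⟨h1, h2, h3⟩ := h; simp_all; done)
      | (obtain ⟨h1, h2, h3⟩ := h; have := head_aux _ _ _ _ h2 h3; simp_all; done)
      | (simp_all; done)
      | (have e : i = j := by apply Fin.ext; omega
         subst e; rfl)

/-- The rule of the machine. -/
def Rule (π : Equiv.Perm (Q G)) : Prop := ∀ t : Tr G, π (src t) = dst t

lemma exists_rule : ∃ π : Equiv.Perm (Q G), Rule π := by
  classical
  let e1 := Equiv.ofInjective _ (src_inj (G := G))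
  let e2 := Equiv.ofInjective _ (dst_inj (G := G))
  let e : {q // q ∈ Set.range (src (G := G))} ≃ {q // q ∈ Set.range (dst (G := G))} :=
    e1.symm.trans e2
  refine ⟨e.extendSubtype, fun t => ?_⟩
  rw [Equiv.extendSubtype_apply_of_mem e (src t) ⟨t, rfl⟩]
  show ((e1.symm.trans e2) ⟨src t, ⟨t, rfl⟩⟩ : Q G) = dst t
  have : e1.symm ⟨src t, ⟨t, rfl⟩⟩ = t := by
    rw [Equiv.symm_apply_eq]
    rfl
  simp only [Equiv.trans_apply, this]
  rfl

end Pool.Agent.Lib.Q903cf7
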