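import Pool.Agent.Lib.Q903cf7.Left

/-!
# The sweep of the machine head
-/

set_option autoImplicit false
set_option linter.unusedSectionVars false

namespace Pool.Agent.Lib.Q903cf7

open Sig Ty

variable {G m : ℕ} [NeZero G]

/-- Data of a sweep: the head moves left over the cells `1, ..., L`, turns at `L + 1`. -/
structure Swp (π : Equiv.Perm (Q G)) (L : ℕ) (cold cnew : ℕ → Ty × Fin G) (sg E : ℕ → Sig)
    (i : Fin G) : Prop where
  first : sg 1 = lam true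
  go : ∀ j, 1 ≤ j → j ≤ L → π (cp 0, cold j, sg j) = (sg (j + 1), cnew j, E j)
  turn : π (cp 0, cold (L + 1), sg (L + 1)) = (cp 0, cnew (L + 1), E (L + 1))
  pass : ∀ j n (y : Fin 3), 1 ≤ j → j < n → n ≤ L + 1 →
    π (E n, cnew j, cp y) = (cp y, cnew j, E n)
  passN : ∀ j (y : Fin 3), 1 ≤ j → π (cp 0, cnew j, cp y) = (cp y, cnew j, cp 0)
  passO : ∀ j (y : Fin 3), 1 ≤ j → π (cp 0, cold j, cp y) = (cp y, cold j, cp 0)
  garb : ∀ n, 1 ≤ n → n ≤ L → ∃ a : Fin 3, E n = cp a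
  zero : ∀ n, L + 2 ≤ n → E n = cp 0
  same : ∀ j, L + 1 ≤ j → cnew j = cold j
  wallO : ∀ j, 1 ≤ j → (cold j).1.wall = false
  wallN : ∀ j, 1 ≤ j → (cnew j).1.wall = false
  idle : ∀ a : Fin 3, π (cp a, (b, i), cp 0) = (cp a, (b, i), cp 0)
  launch : π (cp 0, (bs, i), cp 0) = (lam true, (b, i), cp 0)

/-- The signal in the right lane at time `τ` in cell `j`. -/
def rho (E : ℕ → Sig) (τ j : ℕ) : Sig := if j < τ ∧ (τ + j) % 2 = 0 then E ((τ + j) / 2) else cp 0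

/-- A calm state: nothing in the right lane, garbage in the left lane. -/
def Calm (s : Sig) (c0 : Ty × Fin G) (c : ℕ → Ty × Fin G) (f : ℕ → Q G) : Prop :=
  f 0 = (s, c0, cp 0) ∧ ∀ j, 1 ≤ j → ∃ a : Fin 3, f j = (cp 0, c j, cp a)

/-- The invariant of the sweep. -/
def Inv (L : ℕ) (cold cnew : ℕ → Ty × Fin G) (sg E : ℕ → Sig) (i : Fin G) (τ : ℕ)
    (f : ℕ → Q G) : Prop :=
  f 0 = (rho E τ 0, (b, i), cp 0) ∧ ∀ j, 1 ≤ j → ∃ y : Sig,
    f j = (rho E τ j, (if j < τ then cnew j else cold j), y) ∧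
    ((j = τ ∧ τ ≤ L + 1 ∧ y = sg τ) ∨ (¬ (j = τ ∧ τ ≤ L + 1) ∧ ∃ a : Fin 3, y = cp a))

section
variable {π : Equiv.Perm (Q G)} {L : ℕ} {cold cnew : ℕ → Ty × Fin G} {sg E : ℕ → Sig} {i : Fin G}

/-- The result of the cell permutation. -/
lemma inv_perm (S : Swp π L cold cnew sg E i) {τ : ℕ} {f : ℕ → Q G} (hτ : 1 ≤ τ)
    (h : Inv L cold cnew sg E i τ f) {j : ℕ} (hj : 1 ≤ j) : ∃ y : Sig,
      π (f j) = (y, (if j < τ + 1 then cnew j else cold j), rho E (τ + 1) (j - 1)) ∧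
      ((j = τ ∧ τ ≤ L ∧ y = sg (τ + 1)) ∨ (¬ (j = τ ∧ τ ≤ L) ∧ ∃ a : Fin 3, y = cp a)) := by
  obtain ⟨y, hf, hy⟩ := h.2 j hj
  rw [hf]
  rcases lt_trichotomy j τ with hlt | rfl | hgt
  · -- behind the head
    obtain ⟨-, a, rfl⟩ := hy.resolve_left (fun hh => absurd hh.1 (by omega))
    have e1 : rho E (τ + 1) (j - 1) = rho E τ j := by
      have h1 : (j - 1 < τ + 1 ∧ (τ + 1 + (j - 1)) % 2 = 0) ↔ (j < τ ∧ (τ + j) % 2 = 0) := by
        constructor <;> intro hh <;> constructor <;> omega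
      have h2 : (τ + 1 + (j - 1)) / 2 = (τ + j) / 2 := by omega
      simp only [rho, h1, h2]
    rw [e1, if_pos hlt, if_pos (by omega)]
    refine ⟨cp a, ?_, Or.inr ⟨by omega, a, rfl⟩⟩
    by_cases hp : (τ + j) % 2 = 0
    · have e2 : rho E τ j = E ((τ + j) / 2) := if_pos ⟨hlt, hp⟩
      rw [e2]
      by_cases hn : (τ + j) / 2 ≤ L + 1
      · exact S.pass j _ a hj (by omega) hn
      · rw [S.zero _ (by omega)]
        exact S.passN j a hj
    · have e2 : rho E τ j = cp 0 := if_neg (fun hh => hp hh.2)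
      rw [e2]
      exact S.passN j a hj
  · -- at the head
    have e0 : rho E j j = cp 0 := if_neg (fun hh => absurd hh.1 (by omega))
    have e1 : rho E (j + 1) (j - 1) = E j := by
      have : (j + 1 + (j - 1)) / 2 = j := by omega
      simp only [rho, this]
      rw [if_pos ⟨by omega, by omega⟩]
    rw [e0, e1, if_neg (lt_irrefl j), if_pos (by omega)]
    rcases lt_trichotomy j (L + 1) with h1 | h1 | h1
    · rcases hy with ⟨-, -, rfl⟩ | ⟨hh, -⟩
      · exact ⟨sg (j + 1), S.go j hj (by omega), Or.inl ⟨rfl, by omega, rfl⟩⟩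
      · exact absurd (And.intro rfl (by omega)) hh
    · rcases hy with ⟨-, -, rfl⟩ | ⟨hh, -⟩
      · subst h1
        exact ⟨cp 0, S.turn, Or.inr ⟨by omega, 0, rfl⟩⟩
      · exact absurd (And.intro rfl (by omega)) hh
    · rcases hy with ⟨-, hh, -⟩ | ⟨-, a, rfl⟩
      · omega
      · rw [S.zero j (by omega), S.same j (by omega)]
        exact ⟨cp a, S.passO j a hj, Or.inr ⟨by omega, a, rfl⟩⟩
  · -- ahead of the head
    obtain ⟨-, a, rfl⟩ := hy.resolve_left (fun hh => absurd hh.1 (by omega))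
    have e0 : rho E τ j = cp 0 := if_neg (fun hh => absurd hh.1 (by omega))
    have e1 : rho E (τ + 1) (j - 1) = cp 0 := if_neg (fun hh => by omega)
    rw [e0, e1, if_neg (by omega), if_neg (by omega)]
    exact ⟨cp a, S.passO j a hj, Or.inr ⟨by omega, a, rfl⟩⟩

lemma inv_perm0 (S : Swp π L cold cnew sg E i) {τ : ℕ} {f : ℕ → Q G} (hτ : 1 ≤ τ)
    (hτ' : τ ≤ 2 * L + 1) (h : Inv L cold cnew sg E i τ f) :
    ∃ a : Fin 3, rho E τ 0 = cp a ∧ π (f 0) = (cp a, (b, i), cp 0) := by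
  rw [h.1]
  by_cases hp : (τ + 0) % 2 = 0
  · obtain ⟨a, ha⟩ := S.garb ((τ + 0) / 2) (by omega) (by omega)
    have : rho E τ 0 = cp a := by
      rw [rho, if_pos ⟨by omega, hp⟩, ha]
    exact ⟨a, this, by rw [this]; exact S.idle a⟩
  · have : rho E τ 0 = cp 0 := if_neg (fun hh => hp hh.2)
    exact ⟨0, this, by rw [this]; exact S.idle 0⟩

lemma inv_walls (S : Swp π L cold cnew sg E i) {τ : ℕ} {f : ℕ → Q G} (hτ : 1 ≤ τ)
    (h : Inv L cold cnew sg E i τ f) {n : ℕ} (hn : 1 ≤ n) : wl (π (f n)) = false := by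
  obtain ⟨y, h1, -⟩ := inv_perm S hτ h hn
  rw [h1]
  simp only [wl]
  split_ifs
  · exact S.wallN n hn
  · exact S.wallO n hn

lemma inv_step (S : Swp π L cold cnew sg E i) {τ : ℕ} {f : ℕ → Q G} (hτ : 1 ≤ τ)
    (hτ' : τ ≤ 2 * L + 1) (h : Inv L cold cnew sg E i τ f) :
    WOK π f ∧ Inv L cold cnew sg E i (τ + 1) (stepL π f) := by
  obtain ⟨a0, ha0, hf0⟩ := inv_perm0 S hτ hτ' h
  refine ⟨⟨by rw [hf0]; rfl, fun n hn => inv_walls S hτ h hn⟩, ?_, ?_⟩
  · obtain ⟨y, h1, -⟩ := inv_perm S hτ h (j := 0 + 1) (by omega)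
    simp only [stepL, h1, hf0, if_true, add_tsub_cancel_right]
  · intro j hj
    obtain ⟨y1, h1, -⟩ := inv_perm S hτ h (j := j + 1) (by omega)
    obtain ⟨y2, h2, -⟩ := inv_perm S hτ h hj
    rcases hj.eq_or_lt with hj1 | hj1
    · subst hj1
      refine ⟨cp a0, ?_, Or.inr ⟨by omega, a0, rfl⟩⟩
      simp only [stepL, h1, h2, hf0]
      rfl
    · obtain ⟨y3, h3, hy3⟩ := inv_perm S hτ h (j := j - 1) (by omega)
      refine ⟨y3, ?_, ?_⟩
      · simp only [stepL, h1, h2, h3, if_neg (show ¬ j = 0 by omega)]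
        rfl
      · rcases hy3 with ⟨g1, g2, g3⟩ | ⟨g1, g2⟩
        · exact Or.inl ⟨by omega, by omega, g3⟩
        · exact Or.inr ⟨fun hh => g1 ⟨by omega, by omega⟩, g2⟩

lemma inv_run (S : Swp π L cold cnew sg E i) {f : ℕ → Q G}
    (h : Inv L cold cnew sg E i 1 f) (k : ℕ) (hk : k ≤ 2 * L + 1) :
    Inv L cold cnew sg E i (k + 1) ((stepL π)^[k] f) := by
  induction k with
  | zero => exact h
  | succ k ih =>
    rw [Function.iterate_succ_apply']
    exact (inv_step S (by omega) (by omega) (ih (by omega))).2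

/-- A calm state with a wall transition. -/
lemma calm_step {c0' : Ty × Fin G} {c : ℕ → Ty × Fin G} {f : ℕ → Q G} {s' : Sig}
    (h : ∀ j, 1 ≤ j → ∃ a : Fin 3, f j = (cp 0, c j, cp a)) (h0 : π (f 0) = (s', c0', cp 0))
    (hw : c0'.1.wall = true)
    (hp : ∀ j (y : Fin 3), 1 ≤ j → π (cp 0, c j, cp y) = (cp y, c j, cp 0))
    (hc : ∀ j, 1 ≤ j → (c j).1.wall = false) :
    WOK π f ∧ stepL π f 0 = (cp 0, c0', cp 0) ∧
      ∀ j, 1 ≤ j → ∃ y : Sig, stepL π f j = (cp 0, c j, y) ∧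
        ((j = 1 ∧ y = s') ∨ (¬ j = 1 ∧ ∃ a : Fin 3, y = cp a)) := by
  have hp' : ∀ j, 1 ≤ j → ∃ a : Fin 3, π (f j) = (cp a, c j, cp 0) := by
    intro j hj
    obtain ⟨a, ha⟩ := h j hj
    exact ⟨a, by rw [ha]; exact hp j a hj⟩
  have hf0 : π (f 0) = (s', c0', cp 0) := h0
  refine ⟨⟨by rw [hf0]; exact hw, ?_⟩, ?_, ?_⟩
  · intro n hn
    obtain ⟨a, ha⟩ := hp' n hn
    rw [ha]; exact hc n hn
  · obtain ⟨a, ha⟩ := hp' (0 + 1) (by omega)
    simp only [stepL, ha, hf0, if_true]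
  · intro j hj
    obtain ⟨a1, ha1⟩ := hp' (j + 1) (by omega)
    obtain ⟨a2, ha2⟩ := hp' j hj
    rcases hj.eq_or_lt with hj1 | hj1
    · subst hj1
      refine ⟨s', ?_, Or.inl ⟨rfl, rfl⟩⟩
      simp only [stepL, ha1, ha2, hf0]
      rfl
    · obtain ⟨a3, ha3⟩ := hp' (j - 1) (by omega)
      refine ⟨cp a3, ?_, Or.inr ⟨by omega, a3, rfl⟩⟩
      simp only [stepL, ha1, ha2, ha3, if_neg (show ¬ j = 0 by omega)]

lemma calm_start (S : Swp π L cold cnew sg E i) {f : ℕ → Q G}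
    (h : Calm (cp 0) (bs, i) cold f) :
    WOK π f ∧ Inv L cold cnew sg E i 1 (stepL π f) := by
  obtain ⟨h1, h2, h3⟩ := calm_step h.2 (by rw [h.1]; exact S.launch) rfl S.passO S.wallO
  refine ⟨h1, ?_, ?_⟩
  · rw [h2]; rfl
  · intro j hj
    obtain ⟨y, h4, h5⟩ := h3 j hj
    have e1 : rho E 1 j = cp 0 := if_neg (fun hh => by omega)
    refine ⟨y, ?_, ?_⟩
    · rw [h4, e1, if_neg (by omega)]
    · rcases h5 with ⟨rfl, rfl⟩ | ⟨g1, g2⟩
      · exact Or.inl ⟨rfl, by omega, S.first.symm⟩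
      · exact Or.inr ⟨fun hh => g1 hh.1, g2⟩

lemma inv_end (S : Swp π L cold cnew sg E i) {f : ℕ → Q G}
    (h : Inv L cold cnew sg E i (2 * L + 2) f) : Calm (E (L + 1)) (b, i) cnew f := by
  refine ⟨?_, ?_⟩
  · rw [h.1]
    have : rho E (2 * L + 2) 0 = E (L + 1) := by
      have : (2 * L + 2 + 0) / 2 = L + 1 := by omega
      simp only [rho, this]
      rw [if_pos ⟨by omega, by omega⟩]
    rw [this]
  · intro j hj
    obtain ⟨y, h1, h2⟩ := h.2 j hj
    obtain ⟨-, a, rfl⟩ := h2.resolve_left (fun hh => absurd hh.2.1 (by omega))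
    refine ⟨a, ?_⟩
    rw [h1]
    have e1 : rho E (2 * L + 2) j = cp 0 := by
      unfold rho
      split_ifs with hh
      · exact S.zero _ (by omega)
      · rfl
    have e2 : (if j < 2 * L + 2 then cnew j else cold j) = cnew j := by
      split_ifs with hh
      · rfl
      · exact (S.same j (by omega)).symm
    rw [e1, e2]

/-- The whole sweep, from launch to return. -/
theorem sweep_run (S : Swp π L cold cnew sg E i) {f : ℕ → Q G}
    (h : Calm (cp 0) (bs, i) cold f) :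
    (∀ τ < 2 * L + 2, WOK π ((stepL π)^[τ] f)) ∧
    (∀ t, 1 ≤ t → t ≤ L → (stepL π)^[2 * t] f 0 = (E t, (b, i), cp 0)) ∧
    Calm (E (L + 1)) (b, i) cnew ((stepL π)^[2 * L + 2] f) := by
  obtain ⟨h1, h2⟩ := calm_start S h
  have hI : ∀ τ, 1 ≤ τ → τ ≤ 2 * L + 2 → Inv L cold cnew sg E i τ ((stepL π)^[τ] f) := by
    intro τ hτ hτ'
    obtain ⟨k, rfl⟩ : ∃ k, τ = k + 1 := ⟨τ - 1, by omega⟩
    rw [Function.iterate_succ_apply]
    exact inv_run S h2 k (by omega)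
  refine ⟨?_, ?_, inv_end S (hI _ (by omega) le_rfl)⟩
  · intro τ hτ
    rcases Nat.eq_zero_or_pos τ with rfl | hpos
    · exact h1
    · exact (inv_step S hpos (by omega) (hI τ hpos (by omega))).1
  · intro t ht ht'
    rw [(hI (2 * t) (by omega) (by omega)).1]
    have : rho E (2 * t) 0 = E t := by
      have : (2 * t + 0) / 2 = t := by omega
      simp only [rho, this]
      rw [if_pos ⟨by omega, by omega⟩]
    rw [this]

end

end Pool.Agent.Lib.Q903cf7
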